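import Pool.Agent.Helper65_REV.TAU

set_option autoImplicit false

namespace Pool.Agent.REV.H65

open Set MeasureTheory
open Pool.Agent.REV

theorem Dk_pos {K ρ : ℝ} (hK : 0 < 1 + K) (h0 : 0 ≤ ρ) (h1 : ρ ≤ 1) : 0 < 1 + K * (1 - ρ ^ 2) := by
  have h2 : ρ ^ 2 ≤ 1 := by nlinarith
  have h3 : 1 + K * (1 - ρ ^ 2) = ρ ^ 2 + (1 + K) * (1 - ρ ^ 2) := by ring
  rw [h3]
  rcases eq_or_lt_of_le h2 with h | h
  · rw [h]
    norm_num
  · have := mul_pos hK (by linarith : 0 < 1 - ρ ^ 2)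
    nlinarith [sq_nonneg ρ]

theorem Ek_pos {K r : ℝ} (hK : 0 < 1 + K) (h0 : 0 ≤ r) (h1 : r ≤ 1) : 0 < 1 + K * r ^ 2 := by
  have h2 : r ^ 2 ≤ 1 := by nlinarith
  have h3 : 1 + K * r ^ 2 = (1 - r ^ 2) + (1 + K) * r ^ 2 := by ring
  rw [h3]
  rcases eq_or_lt_of_le (sq_nonneg r) with h | h
  · rw [← h]
    norm_num
  · have := mul_pos hK h
    nlinarith

theorem rpow_three_half {D : ℝ} (hD : 0 < D) : D ^ (-(3 / 2) : ℝ) = 1 / (D * Real.sqrt D) := by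
  rw [Real.rpow_neg hD.le, one_div]
  congr 1
  rw [Real.sqrt_eq_rpow]
  nth_rewrite 2 [← Real.rpow_one D]
  rw [← Real.rpow_add hD]
  norm_num

theorem phi_deriv {K ρ : ℝ} (hK : 0 < 1 + K) (h0 : 0 ≤ ρ) (h1 : ρ ≤ 1) :
    HasDerivAt (fun x : ℝ => x / Real.sqrt (1 + K * (1 - x ^ 2)))
      ((1 + K) * (1 + K * (1 - ρ ^ 2)) ^ (-(3 / 2) : ℝ)) ρ := by
  have hD := Dk_pos hK h0 h1
  have hs : Real.sqrt (1 + K * (1 - ρ ^ 2)) ≠ 0 := (Real.sqrt_pos.mpr hD).ne'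
  have h2 : HasDerivAt (fun x : ℝ => 1 + K * (1 - x ^ 2)) (-(2 * K * ρ)) ρ := by
    have h3 := ((hasDerivAt_pow 2 ρ).const_sub 1).const_mul K |>.const_add 1
    refine h3.congr_deriv ?_
    ring
  have h4 := h2.sqrt hD.ne'
  have h5 := (hasDerivAt_id ρ).div h4 hs
  refine h5.congr_deriv ?_
  rw [rpow_three_half hD]
  have hsq : Real.sqrt (1 + K * (1 - ρ ^ 2)) ^ 2 = 1 + K * (1 - ρ ^ 2) := Real.sq_sqrt hD.le
  obtain ⟨s, hs'⟩ : ∃ s, s = Real.sqrt (1 + K * (1 - ρ ^ 2)) := ⟨_, rfl⟩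
  rw [← hs'] at hs hsq ⊢
  have hDs : 1 + K * (1 - ρ ^ 2) = s ^ 2 := hsq.symm
  rw [hDs]
  show (1 * s - ρ * (-(2 * K * ρ) / (2 * s))) / s ^ 2 = (1 + K) * (1 / (s ^ 2 * s))
  field_simp
  linear_combination hsq

theorem phi_sq {K ρ : ℝ} (hK : 0 < 1 + K) (h0 : 0 ≤ ρ) (h1 : ρ ≤ 1) :
    (ρ / Real.sqrt (1 + K * (1 - ρ ^ 2))) ^ 2 = ρ ^ 2 / (1 + K * (1 - ρ ^ 2)) := by
  rw [div_pow, Real.sq_sqrt (Dk_pos hK h0 h1).le]

theorem phi_lt {K ρ ρ' : ℝ} (hK : 0 < 1 + K) (h0 : 0 ≤ ρ) (h : ρ < ρ') (h1 : ρ' ≤ 1) :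
    ρ / Real.sqrt (1 + K * (1 - ρ ^ 2)) < ρ' / Real.sqrt (1 + K * (1 - ρ' ^ 2)) := by
  have hD := Dk_pos hK h0 (h.le.trans h1)
  have hD' := Dk_pos hK (h0.trans h.le) h1
  have h2 : (ρ / Real.sqrt (1 + K * (1 - ρ ^ 2))) ^ 2 <
      (ρ' / Real.sqrt (1 + K * (1 - ρ' ^ 2))) ^ 2 := by
    rw [phi_sq hK h0 (h.le.trans h1), phi_sq hK (h0.trans h.le) h1, div_lt_div_iff₀ hD hD']
    have h3 : ρ ^ 2 < ρ' ^ 2 := by nlinarith
    have h4 := mul_pos hK (sub_pos.mpr h3)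
    nlinarith
  exact lt_of_pow_lt_pow_left₀ 2 (div_nonneg (h0.trans h.le) (Real.sqrt_nonneg _)) h2

theorem phi_image {K : ℝ} (hK : 0 < 1 + K) :
    (fun x : ℝ => x / Real.sqrt (1 + K * (1 - x ^ 2))) '' Ioo (0 : ℝ) 1 = Ioo (0 : ℝ) 1 := by
  ext r
  constructor
  · rintro ⟨ρ, ⟨h0, h1⟩, rfl⟩
    refine ⟨?_, ?_⟩
    · exact div_pos h0 (Real.sqrt_pos.mpr (Dk_pos hK h0.le h1.le))
    · have h2 := phi_lt hK h0.le h1 le_rfl
      have h3 : (1 : ℝ) / Real.sqrt (1 + K * (1 - 1 ^ 2)) = 1 := by norm_num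
      rw [h3] at h2
      exact h2
  · rintro ⟨h0, h1⟩
    have hE := Ek_pos hK h0.le h1.le
    have hsE : 0 < Real.sqrt (1 + K * r ^ 2) := Real.sqrt_pos.mpr hE
    have hsq : 0 < Real.sqrt (1 + K) := Real.sqrt_pos.mpr hK
    have hρ0 : 0 < r * Real.sqrt (1 + K) / Real.sqrt (1 + K * r ^ 2) :=
      div_pos (mul_pos h0 hsq) hsE
    have hρ2 : (r * Real.sqrt (1 + K) / Real.sqrt (1 + K * r ^ 2)) ^ 2 =
        r ^ 2 * (1 + K) / (1 + K * r ^ 2) := by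
      rw [div_pow, mul_pow, Real.sq_sqrt hK.le, Real.sq_sqrt hE.le]
    have hρ1 : r * Real.sqrt (1 + K) / Real.sqrt (1 + K * r ^ 2) < 1 := by
      have h2 : (r * Real.sqrt (1 + K) / Real.sqrt (1 + K * r ^ 2)) ^ 2 < 1 ^ 2 := by
        rw [hρ2, one_pow, div_lt_one hE]
        nlinarith
      exact lt_of_pow_lt_pow_left₀ 2 zero_le_one h2
    refine ⟨r * Real.sqrt (1 + K) / Real.sqrt (1 + K * r ^ 2), ⟨hρ0, hρ1⟩, ?_⟩
    show r * Real.sqrt (1 + K) / Real.sqrt (1 + K * r ^ 2) /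
      Real.sqrt (1 + K * (1 - (r * Real.sqrt (1 + K) / Real.sqrt (1 + K * r ^ 2)) ^ 2)) = r
    have hD : 1 + K * (1 - (r * Real.sqrt (1 + K) / Real.sqrt (1 + K * r ^ 2)) ^ 2) =
        (1 + K) / (1 + K * r ^ 2) := by
      rw [hρ2]
      field_simp
      ring
    rw [hD, Real.sqrt_div hK.le]
    have e1 : r * Real.sqrt (1 + K) / Real.sqrt (1 + K * r ^ 2) /
        (Real.sqrt (1 + K) / Real.sqrt (1 + K * r ^ 2)) =
        r * (Real.sqrt (1 + K) / Real.sqrt (1 + K * r ^ 2)) /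
        (Real.sqrt (1 + K) / Real.sqrt (1 + K * r ^ 2)) := by
      rw [mul_div_assoc]
    rw [e1]
    exact mul_div_cancel_right₀ r (div_pos hsq hsE).ne'

/-- CHV -/
theorem chv : ChvStmt := by
  intro g c hg hc0 hc1 F
  obtain ⟨K, hKdef⟩ : ∃ K : ℝ, K = (g - 1) * c ^ 2 := ⟨_, rfl⟩
  have hK : 0 < 1 + K := by
    rw [hKdef]
    exact q_pos hg hc0 hc1
  rw [← hKdef, intervalIntegral.integral_of_le zero_le_one,
    intervalIntegral.integral_of_le zero_le_one, integral_Ioc_eq_integral_Ioo,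
    integral_Ioc_eq_integral_Ioo]
  have himg := phi_image hK
  conv_lhs => rw [← himg]
  rw [integral_image_eq_integral_abs_deriv_smul measurableSet_Ioo
    (fun ρ hρ => (phi_deriv hK hρ.1.le hρ.2.le).hasDerivWithinAt) (by
      intro x hx y hy hxy
      rcases lt_trichotomy x y with h | h | h
      · exact absurd hxy (phi_lt hK hx.1.le h hy.2.le).ne
      · exact h
      · exact absurd hxy (phi_lt hK hy.1.le h hx.2.le).ne')]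
  apply setIntegral_congr_fun measurableSet_Ioo
  intro ρ hρ
  have hD := Dk_pos hK hρ.1.le hρ.2.le
  have h1 : 0 ≤ (1 + K) * (1 + K * (1 - ρ ^ 2)) ^ (-(3 / 2) : ℝ) :=
    mul_nonneg hK.le (Real.rpow_nonneg hD.le _)
  show |(1 + K) * (1 + K * (1 - ρ ^ 2)) ^ (-(3 / 2) : ℝ)| •
      F (ρ / Real.sqrt (1 + K * (1 - ρ ^ 2))) =
    (1 + K) * (1 + K * (1 - ρ ^ 2)) ^ (-(3 / 2) : ℝ) *
      F (ρ / Real.sqrt (1 + K * (1 - ρ ^ 2)))
  rw [abs_of_nonneg h1, smul_eq_mul]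

end Pool.Agent.REV.H65
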