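import Pool.Agent.REV.StmtsA1g
import Pool.Agent.Helper65_REV.CHV

/-!
# Squad REV (problem MP_bbfd73_gt): general forms TAUG CHVG CVAG CVBG MRAG, and row CVB
-/

set_option autoImplicit false

namespace Pool.Agent.REV.H65

open Set MeasureTheory
open Pool.Agent.REV

theorem ta_sq' {g c ρ : ℝ} (hK : 0 < 1 + (g - 1) * c ^ 2) (h0 : 0 ≤ ρ) (h1 : ρ ≤ 1) :
    ta g c ρ ^ 2 = ρ ^ 2 * c ^ 2 / (1 + (g - 1) * c ^ 2 * (1 - ρ ^ 2)) := by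
  unfold ta
  rw [div_pow, Real.sq_sqrt (Dk_pos hK h0 h1).le, mul_pow]

/-- TAUG -/
theorem taug : TaugStmt := by
  intro g hg
  refine ⟨?_, ?_, ?_⟩
  · intro c ρ hc h0 h1
    obtain ⟨hc0, hc1, hK⟩ := hc
    have hD := Dk_pos hK h0 h1
    refine ⟨hD, ta_nonneg hc0 h0, ?_⟩
    have hsq := ta_sq' hK h0 h1
    have h2 : ta g c ρ ^ 2 ≤ 1 := by
      rw [hsq, div_le_one hD]
      have h3 : 0 ≤ g * (c ^ 2 * (1 - ρ ^ 2)) := by
        have : 0 ≤ c ^ 2 * (1 - ρ ^ 2) := mul_nonneg (sq_nonneg c) (by nlinarith)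
        positivity
      nlinarith
    nlinarith [ta_nonneg (g := g) hc0 h0]
  · intro c c' ρ hc hc' hcc h0 h1
    obtain ⟨hc0, hc1, hK⟩ := hc
    obtain ⟨hc0', hc1', hK'⟩ := hc'
    have hD := Dk_pos hK h0 h1
    have hD' := Dk_pos hK' h0 h1
    have h2 : ta g c ρ ^ 2 ≤ ta g c' ρ ^ 2 := by
      rw [ta_sq' hK h0 h1, ta_sq' hK' h0 h1, div_le_div_iff₀ hD hD']
      have h3 : c ^ 2 ≤ c' ^ 2 := by nlinarith
      have h4 : 0 ≤ ρ ^ 2 * (c' ^ 2 - c ^ 2) := mul_nonneg (sq_nonneg ρ) (by linarith)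
      nlinarith
    exact (pow_le_pow_iff_left₀ (ta_nonneg hc0 h0) (ta_nonneg hc0' h0) (two_ne_zero)).mp h2
  · intro c ρ ρ' hc h0 hrr h1
    obtain ⟨hc0, hc1, hK⟩ := hc
    have hD := Dk_pos hK h0 (hrr.trans h1)
    have hD' := Dk_pos hK (h0.trans hrr) h1
    have h2 : ta g c ρ ^ 2 ≤ ta g c ρ' ^ 2 := by
      rw [ta_sq' hK h0 (hrr.trans h1), ta_sq' hK (h0.trans hrr) h1, div_le_div_iff₀ hD hD']
      have h3 : ρ ^ 2 ≤ ρ' ^ 2 := by nlinarith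
      have h4 : 0 ≤ c ^ 2 * ((ρ' ^ 2 - ρ ^ 2) * (1 + (g - 1) * c ^ 2)) :=
        mul_nonneg (sq_nonneg c) (mul_nonneg (by linarith) hK.le)
      nlinarith
    exact (pow_le_pow_iff_left₀ (ta_nonneg hc0 h0) (ta_nonneg hc0 (h0.trans hrr))
      (two_ne_zero)).mp h2

/-- CHVG -/
theorem chvg : ChvgStmt := by
  intro g c hq F
  obtain ⟨K, hKdef⟩ : ∃ K : ℝ, K = (g - 1) * c ^ 2 := ⟨_, rfl⟩
  rw [← hKdef] at hq ⊢
  rw [intervalIntegral.integral_of_le zero_le_one,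
    intervalIntegral.integral_of_le zero_le_one, integral_Ioc_eq_integral_Ioo,
    integral_Ioc_eq_integral_Ioo]
  have himg := phi_image hq
  conv_lhs => rw [← himg]
  rw [integral_image_eq_integral_abs_deriv_smul measurableSet_Ioo
    (fun ρ hρ => (phi_deriv hq hρ.1.le hρ.2.le).hasDerivWithinAt) (by
      intro x hx y hy hxy
      rcases lt_trichotomy x y with h | h | h
      · exact absurd hxy (phi_lt hq hx.1.le h hy.2.le).ne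
      · exact h
      · exact absurd hxy (phi_lt hq hy.1.le h hx.2.le).ne')]
  apply setIntegral_congr_fun measurableSet_Ioo
  intro ρ hρ
  have hD := Dk_pos hq hρ.1.le hρ.2.le
  have h1 : 0 ≤ (1 + K) * (1 + K * (1 - ρ ^ 2)) ^ (-(3 / 2) : ℝ) :=
    mul_nonneg hq.le (Real.rpow_nonneg hD.le _)
  show |(1 + K) * (1 + K * (1 - ρ ^ 2)) ^ (-(3 / 2) : ℝ)| •
      F (ρ / Real.sqrt (1 + K * (1 - ρ ^ 2))) =
    (1 + K) * (1 + K * (1 - ρ ^ 2)) ^ (-(3 / 2) : ℝ) *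
      F (ρ / Real.sqrt (1 + K * (1 - ρ ^ 2)))
  rw [abs_of_nonneg h1, smul_eq_mul]

theorem algA {q D s p N : ℝ} (hq : 0 < q) (hD : 0 < D) (hs : 0 ≤ s) (h : N = p + 3 / 2) :
    q * D ^ (-(3 / 2) : ℝ) * (q * s / D) ^ p = q ^ (-(1 / 2) : ℝ) * (s ^ p * (q / D) ^ N) := by
  rw [h, Real.div_rpow (by positivity) hD.le, Real.mul_rpow hq.le hs,
    Real.div_rpow hq.le hD.le, Real.rpow_add hq, Real.rpow_add hD, Real.rpow_neg hD.le]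
  have e1 : q ^ (-(1 / 2) : ℝ) * q ^ (3 / 2 : ℝ) = q := by
    rw [← Real.rpow_add hq]
    norm_num
  have e2 : q ^ (-(1 / 2) : ℝ) * (s ^ p * (q ^ p * q ^ (3 / 2 : ℝ) / (D ^ p * D ^ (3 / 2 : ℝ)))) =
      (q ^ (-(1 / 2) : ℝ) * q ^ (3 / 2 : ℝ)) * (s ^ p * (q ^ p / (D ^ p * D ^ (3 / 2 : ℝ)))) := by
    ring
  rw [e2, e1]
  ring

theorem algB {q D s p N : ℝ} (hq : 0 < q) (hD : 0 < D) (hs : 0 ≤ s) (h : N = p + 5 / 2) :
    q * D ^ (-(3 / 2) : ℝ) * ((q * s / D) ^ p / D) =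
      q ^ (-(3 / 2) : ℝ) * (s ^ p * (q / D) ^ N) := by
  rw [h, Real.div_rpow (by positivity) hD.le, Real.mul_rpow hq.le hs,
    Real.div_rpow hq.le hD.le, Real.rpow_add hq, Real.rpow_add hD, Real.rpow_neg hD.le]
  have e1 : q ^ (-(3 / 2) : ℝ) * q ^ (5 / 2 : ℝ) = q := by
    rw [← Real.rpow_add hq]
    norm_num
  have e3 : D ^ (5 / 2 : ℝ) = D * D ^ (3 / 2 : ℝ) := by
    have h5 : (5 / 2 : ℝ) = 1 + 3 / 2 := by norm_num
    rw [h5, Real.rpow_add hD, Real.rpow_one]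
  have e2 : q ^ (-(3 / 2) : ℝ) * (s ^ p * (q ^ p * q ^ (5 / 2 : ℝ) / (D ^ p * D ^ (5 / 2 : ℝ)))) =
      (q ^ (-(3 / 2) : ℝ) * q ^ (5 / 2 : ℝ)) * (s ^ p * (q ^ p / (D ^ p * D ^ (5 / 2 : ℝ)))) := by
    ring
  rw [e2, e1, e3]
  ring

theorem one_sub_phi {K ρ : ℝ} (hK : 0 < 1 + K) (h0 : 0 ≤ ρ) (h1 : ρ ≤ 1) :
    1 - (ρ / Real.sqrt (1 + K * (1 - ρ ^ 2))) ^ 2 =
      (1 + K) * (1 - ρ ^ 2) / (1 + K * (1 - ρ ^ 2)) := by
  have hD := Dk_pos hK h0 h1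
  rw [phi_sq hK h0 h1, eq_div_iff hD.ne', sub_mul, div_mul_cancel₀ _ hD.ne']
  ring

theorem one_add_ta {g c ρ : ℝ} (hK : 0 < 1 + (g - 1) * c ^ 2) (h0 : 0 ≤ ρ) (h1 : ρ ≤ 1) :
    1 + (g - 1) * ta g c ρ ^ 2 =
      (1 + (g - 1) * c ^ 2) / (1 + (g - 1) * c ^ 2 * (1 - ρ ^ 2)) := by
  have hD := Dk_pos hK h0 h1
  rw [ta_sq' hK h0 h1, eq_div_iff hD.ne', add_mul, mul_assoc (g - 1) (_ / _) _,
    div_mul_cancel₀ _ hD.ne']
  ring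

theorem phi_mul {g c ρ : ℝ} :
    ρ / Real.sqrt (1 + (g - 1) * c ^ 2 * (1 - ρ ^ 2)) * c = ta g c ρ := by
  unfold ta
  ring

/-- CVAG -/
theorem cvag : CvagStmt := by
  intro n g c f hq
  unfold RA RA'
  rw [chvg g c hq, ← intervalIntegral.integral_const_mul]
  rw [intervalIntegral.integral_of_le zero_le_one, intervalIntegral.integral_of_le zero_le_one,
    integral_Ioc_eq_integral_Ioo, integral_Ioc_eq_integral_Ioo]
  apply setIntegral_congr_fun measurableSet_Ioo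
  intro ρ hρ
  have h0 := hρ.1.le
  have h1 := hρ.2.le
  have hD := Dk_pos hq h0 h1
  have hs : 0 ≤ 1 - ρ ^ 2 := by nlinarith
  show (1 + (g - 1) * c ^ 2) * (1 + (g - 1) * c ^ 2 * (1 - ρ ^ 2)) ^ (-(3 / 2) : ℝ) *
      ((1 - (ρ / Real.sqrt (1 + (g - 1) * c ^ 2 * (1 - ρ ^ 2))) ^ 2) ^ (((n : ℝ) - 2) / 2) *
        f (ρ / Real.sqrt (1 + (g - 1) * c ^ 2 * (1 - ρ ^ 2)) * c)) =
    (1 + (g - 1) * c ^ 2) ^ (-(1 / 2) : ℝ) *
      ((1 - ρ ^ 2) ^ (((n : ℝ) - 2) / 2) * El n g f (ta g c ρ))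
  unfold El
  rw [one_sub_phi hq h0 h1, phi_mul, one_add_ta hq h0 h1, ← mul_assoc,
    algA hq hD hs (N := ((n : ℝ) + 1) / 2) (by ring)]
  ring

/-- CVBG -/
theorem cvbg : CvbgStmt := by
  intro n g c f hq
  unfold RB RB'
  rw [chvg g c hq, ← intervalIntegral.integral_const_mul]
  rw [intervalIntegral.integral_of_le zero_le_one, intervalIntegral.integral_of_le zero_le_one,
    integral_Ioc_eq_integral_Ioo, integral_Ioc_eq_integral_Ioo]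
  apply setIntegral_congr_fun measurableSet_Ioo
  intro ρ hρ
  have h0 := hρ.1.le
  have h1 := hρ.2.le
  have hD := Dk_pos hq h0 h1
  have hs : 0 ≤ 1 - ρ ^ 2 := by nlinarith
  show (1 + (g - 1) * c ^ 2) * (1 + (g - 1) * c ^ 2 * (1 - ρ ^ 2)) ^ (-(3 / 2) : ℝ) *
      ((ρ / Real.sqrt (1 + (g - 1) * c ^ 2 * (1 - ρ ^ 2))) ^ 2 *
        (1 - (ρ / Real.sqrt (1 + (g - 1) * c ^ 2 * (1 - ρ ^ 2))) ^ 2) ^ (((n : ℝ) - 4) / 2) *
        f (ρ / Real.sqrt (1 + (g - 1) * c ^ 2 * (1 - ρ ^ 2)) * c)) =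
    (1 + (g - 1) * c ^ 2) ^ (-(3 / 2) : ℝ) *
      (ρ ^ 2 * (1 - ρ ^ 2) ^ (((n : ℝ) - 4) / 2) * El n g f (ta g c ρ))
  unfold El
  rw [one_sub_phi hq h0 h1, phi_mul, one_add_ta hq h0 h1, phi_sq hq h0 h1]
  have key := algB hq hD hs (p := ((n : ℝ) - 4) / 2) (N := ((n : ℝ) + 1) / 2) (by ring)
  calc _ = ρ ^ 2 * f (ta g c ρ) * ((1 + (g - 1) * c ^ 2) *
        (1 + (g - 1) * c ^ 2 * (1 - ρ ^ 2)) ^ (-(3 / 2) : ℝ) *
        (((1 + (g - 1) * c ^ 2) * (1 - ρ ^ 2) / (1 + (g - 1) * c ^ 2 * (1 - ρ ^ 2))) ^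
          (((n : ℝ) - 4) / 2) / (1 + (g - 1) * c ^ 2 * (1 - ρ ^ 2)))) := by ring
    _ = _ := by rw [key]; ring

/-- CVA -/
theorem cva : CvaStmt := by
  intro n g c f _ hg hc0 hc1
  exact cvag n g c f (q_pos hg hc0 hc1)

/-- CVB -/
theorem cvb : CvbStmt := by
  intro n g c f _ hg hc0 hc1
  exact cvbg n g c f (q_pos hg hc0 hc1)

theorem mra_core {w h₁ h₂ : ℝ → ℝ} (hw : Continuous w) (hw0 : ∀ ρ ∈ Icc (0 : ℝ) 1, 0 ≤ w ρ)
    (i₁ : IntervalIntegrable h₁ volume 0 1) (i₂ : IntervalIntegrable h₂ volume 0 1)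
    (hle : ∀ ρ ∈ Icc (0 : ℝ) 1, h₁ ρ ≤ h₂ ρ) :
    ∫ ρ in (0 : ℝ)..1, w ρ * h₁ ρ ≤ ∫ ρ in (0 : ℝ)..1, w ρ * h₂ ρ := by
  refine intervalIntegral.integral_mono_on zero_le_one ?_ ?_ ?_
  · exact i₁.continuousOn_mul hw.continuousOn
  · exact i₂.continuousOn_mul hw.continuousOn
  · intro ρ hρ
    exact mul_le_mul_of_nonneg_left (hle ρ hρ) (hw0 ρ hρ)

theorem wA_cont {n : ℕ} (hn : 4 ≤ n) :
    Continuous (fun ρ : ℝ => (1 - ρ ^ 2) ^ (((n : ℝ) - 2) / 2)) := by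
  refine Continuous.rpow_const (by fun_prop) fun ρ => Or.inr ?_
  have : (4 : ℝ) ≤ n := by exact_mod_cast hn
  linarith

theorem wB_cont {n : ℕ} (hn : 4 ≤ n) :
    Continuous (fun ρ : ℝ => ρ ^ 2 * (1 - ρ ^ 2) ^ (((n : ℝ) - 4) / 2)) := by
  refine Continuous.mul (by fun_prop) (Continuous.rpow_const (by fun_prop) fun ρ => Or.inr ?_)
  have : (4 : ℝ) ≤ n := by exact_mod_cast hn
  linarith

theorem wA_nonneg {n : ℕ} {ρ : ℝ} (h : ρ ∈ Icc (0 : ℝ) 1) :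
    0 ≤ (1 - ρ ^ 2) ^ (((n : ℝ) - 2) / 2) := by
  refine Real.rpow_nonneg ?_ _
  nlinarith [h.1, h.2]

theorem wB_nonneg {n : ℕ} {ρ : ℝ} (h : ρ ∈ Icc (0 : ℝ) 1) :
    0 ≤ ρ ^ 2 * (1 - ρ ^ 2) ^ (((n : ℝ) - 4) / 2) := by
  refine mul_nonneg (sq_nonneg _) (Real.rpow_nonneg ?_ _)
  nlinarith [h.1, h.2]

/-- MRAG -/
theorem mrag : MragStmt := by
  intro n g f hn hg hf
  obtain ⟨t1, t2, t3⟩ := taug g hg
  have hI01 : uIcc (0 : ℝ) 1 = Icc 0 1 := uIcc_of_le zero_le_one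
  refine ⟨?_, ?_, ?_⟩
  · intro c hc
    have hEl : ∀ ρ ∈ Icc (0 : ℝ) 1, 0 ≤ El n g f (ta g c ρ) := by
      intro ρ hρ
      have ht := (t1 c ρ hc hρ.1 hρ.2).2
      refine mul_nonneg (Real.rpow_nonneg ?_ _) (hf _ ht)
      have h1 : ta g c ρ ^ 2 ≤ 1 := by nlinarith [ht.1, ht.2]
      have h2 := mul_nonneg hg (sq_nonneg (ta g c ρ))
      nlinarith
    constructor
    · exact intervalIntegral.integral_nonneg zero_le_one fun ρ hρ =>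
        mul_nonneg (wA_nonneg hρ) (hEl ρ hρ)
    · exact intervalIntegral.integral_nonneg zero_le_one fun ρ hρ =>
        mul_nonneg (wB_nonneg hρ) (hEl ρ hρ)
  · intro hL
    have hint : ∀ c ∈ Sg g, IntervalIntegrable (fun ρ => El n g f (ta g c ρ)) volume 0 1 := by
      intro c hc
      refine MonotoneOn.intervalIntegrable ?_
      rw [hI01]
      intro ρ hρ ρ' hρ' h
      exact hL (t1 c ρ hc hρ.1 hρ.2).2 (t1 c ρ' hc hρ'.1 hρ'.2).2 (t3 c ρ ρ' hc hρ.1 h hρ'.2)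
    constructor
    · intro c hc c' hc' hcc
      exact mra_core (wA_cont hn) (fun ρ hρ => wA_nonneg hρ) (hint c hc) (hint c' hc')
        fun ρ hρ => hL (t1 c ρ hc hρ.1 hρ.2).2 (t1 c' ρ hc' hρ.1 hρ.2).2
          (t2 c c' ρ hc hc' hcc hρ.1 hρ.2)
    · intro c hc c' hc' hcc
      exact mra_core (wB_cont hn) (fun ρ hρ => wB_nonneg hρ) (hint c hc) (hint c' hc')
        fun ρ hρ => hL (t1 c ρ hc hρ.1 hρ.2).2 (t1 c' ρ hc' hρ.1 hρ.2).2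
          (t2 c c' ρ hc hc' hcc hρ.1 hρ.2)
  · intro hU
    have hint : ∀ c ∈ Sg g, IntervalIntegrable (fun ρ => El n g f (ta g c ρ)) volume 0 1 := by
      intro c hc
      refine AntitoneOn.intervalIntegrable ?_
      rw [hI01]
      intro ρ hρ ρ' hρ' h
      exact hU (t1 c ρ hc hρ.1 hρ.2).2 (t1 c ρ' hc hρ'.1 hρ'.2).2 (t3 c ρ ρ' hc hρ.1 h hρ'.2)
    constructor
    · intro c hc c' hc' hcc
      exact mra_core (wA_cont hn) (fun ρ hρ => wA_nonneg hρ) (hint c' hc') (hint c hc)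
        fun ρ hρ => hU (t1 c ρ hc hρ.1 hρ.2).2 (t1 c' ρ hc' hρ.1 hρ.2).2
          (t2 c c' ρ hc hc' hcc hρ.1 hρ.2)
    · intro c hc c' hc' hcc
      exact mra_core (wB_cont hn) (fun ρ hρ => wB_nonneg hρ) (hint c' hc') (hint c hc)
        fun ρ hρ => hU (t1 c ρ hc hρ.1 hρ.2).2 (t1 c' ρ hc' hρ.1 hρ.2).2
          (t2 c c' ρ hc hc' hcc hρ.1 hρ.2)

end Pool.Agent.REV.H65
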