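import Pool.Agent.REV.StmtsA1

set_option autoImplicit false

namespace Pool.Agent.REV.H65

open Set
open Pool.Agent.REV

theorem D_pos {g c ρ : ℝ} (hg : 0 < g) (hc0 : 0 ≤ c) (hc1 : c ≤ 1) (h0 : 0 ≤ ρ) (h1 : ρ ≤ 1) :
    0 < 1 + (g - 1) * c ^ 2 * (1 - ρ ^ 2) := by
  have h2 : 0 ≤ c ^ 2 * (1 - ρ ^ 2) := mul_nonneg (sq_nonneg c) (by nlinarith)
  have h3 : c ^ 2 * (1 - ρ ^ 2) ≤ 1 := by
    have hc2 : c ^ 2 ≤ 1 := by nlinarith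
    have hr : 1 - ρ ^ 2 ≤ 1 := by nlinarith [sq_nonneg ρ]
    have hr0 : 0 ≤ 1 - ρ ^ 2 := by nlinarith
    calc c ^ 2 * (1 - ρ ^ 2) ≤ 1 * 1 := mul_le_mul hc2 hr hr0 (by norm_num)
      _ = 1 := by norm_num
  have h4 : 1 + (g - 1) * c ^ 2 * (1 - ρ ^ 2) =
      (1 - c ^ 2 * (1 - ρ ^ 2)) + g * (c ^ 2 * (1 - ρ ^ 2)) := by ring
  rw [h4]
  rcases eq_or_lt_of_le h2 with h | h
  · rw [← h]
    norm_num
  · have := mul_pos hg h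
    linarith

theorem q_pos {g c : ℝ} (hg : 0 < g) (hc0 : 0 ≤ c) (hc1 : c ≤ 1) : 0 < 1 + (g - 1) * c ^ 2 := by
  have h := D_pos hg hc0 hc1 (le_refl (0 : ℝ)) zero_le_one
  simpa using h

theorem ta_nonneg {g c ρ : ℝ} (hc0 : 0 ≤ c) (h0 : 0 ≤ ρ) : 0 ≤ ta g c ρ := by
  unfold ta
  positivity

theorem ta_sq {g c ρ : ℝ} (hg : 0 < g) (hc0 : 0 ≤ c) (hc1 : c ≤ 1) (h0 : 0 ≤ ρ) (h1 : ρ ≤ 1) :
    ta g c ρ ^ 2 = ρ ^ 2 * c ^ 2 / (1 + (g - 1) * c ^ 2 * (1 - ρ ^ 2)) := by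
  unfold ta
  rw [div_pow, Real.sq_sqrt (D_pos hg hc0 hc1 h0 h1).le, mul_pow]

/-- TAU -/
theorem tau : TauStmt := by
  intro g hg
  refine ⟨?_, ?_, ?_⟩
  · intro c ρ hc0 hc1 h0 h1
    refine ⟨D_pos hg hc0 hc1 h0 h1, q_pos hg hc0 hc1, ta_nonneg hc0 h0, ?_⟩
    have hD := D_pos hg hc0 hc1 h0 h1
    have hsq := ta_sq hg hc0 hc1 h0 h1
    have h2 : ta g c ρ ^ 2 ≤ 1 := by
      rw [hsq, div_le_one hD]
      have h3 : 0 ≤ g * (c ^ 2 * (1 - ρ ^ 2)) := by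
        have : 0 ≤ c ^ 2 * (1 - ρ ^ 2) := mul_nonneg (sq_nonneg c) (by nlinarith)
        positivity
      nlinarith
    nlinarith [ta_nonneg (g := g) hc0 h0]
  · intro c c' ρ hc0 hcc hc1 h0 h1
    have hD := D_pos hg hc0 (hcc.trans hc1) h0 h1
    have hD' := D_pos hg (hc0.trans hcc) hc1 h0 h1
    have h2 : ta g c ρ ^ 2 ≤ ta g c' ρ ^ 2 := by
      rw [ta_sq hg hc0 (hcc.trans hc1) h0 h1, ta_sq hg (hc0.trans hcc) hc1 h0 h1,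
        div_le_div_iff₀ hD hD']
      have h3 : c ^ 2 ≤ c' ^ 2 := by nlinarith
      have h4 : 0 ≤ ρ ^ 2 * (c' ^ 2 - c ^ 2) := mul_nonneg (sq_nonneg ρ) (by linarith)
      nlinarith
    exact (pow_le_pow_iff_left₀ (ta_nonneg hc0 h0) (ta_nonneg (hc0.trans hcc) h0)
      (two_ne_zero)).mp h2
  · intro c ρ ρ' hc0 hc1 h0 hrr h1
    have hD := D_pos hg hc0 hc1 h0 (hrr.trans h1)
    have hD' := D_pos hg hc0 hc1 (h0.trans hrr) h1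
    have h2 : ta g c ρ ^ 2 ≤ ta g c ρ' ^ 2 := by
      rw [ta_sq hg hc0 hc1 h0 (hrr.trans h1), ta_sq hg hc0 hc1 (h0.trans hrr) h1,
        div_le_div_iff₀ hD hD']
      have h3 : ρ ^ 2 ≤ ρ' ^ 2 := by nlinarith
      have hq := q_pos hg hc0 hc1
      have h4 : 0 ≤ c ^ 2 * ((ρ' ^ 2 - ρ ^ 2) * (1 + (g - 1) * c ^ 2)) :=
        mul_nonneg (sq_nonneg c) (mul_nonneg (by linarith) hq.le)
      nlinarith
    exact (pow_le_pow_iff_left₀ (ta_nonneg hc0 h0) (ta_nonneg hc0 (h0.trans hrr))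
      (two_ne_zero)).mp h2

end Pool.Agent.REV.H65
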