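import Pool.Agent.Helper65_REV.A13
import Pool.Agent.Helper12_REV.PWI
import Pool.Agent.Helper16_REV.LWA
import Pool.Agent.Helper89_REV.LWB

/-!
# Squad REV (problem MP_bbfd73_gt): part A1 for n >= 3, without hypotheses
-/

set_option autoImplicit false

namespace Pool.Agent.REV.H65

open Pool.Agent.REV

theorem int3All : Int3Stmt := int3 Pool.Agent.REV.H12.pwi

theorem mra3All : Mra3Stmt := mra3 Pool.Agent.REV.H12.pwi

theorem sta3All : Sta3Stmt := sta3 Pool.Agent.REV.H12.pwi Pool.Agent.REV.H16.lwa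

theorem stb3All : Stb3Stmt := stb3 Pool.Agent.REV.H12.pwi Pool.Agent.REV.H89.lwb

end Pool.Agent.REV.H65
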