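import Pool.Agent.REV.StmtsG4
import Pool.Agent.Helper65_REV.A13All

/-!
# Squad REV (problem MP_bbfd73_gt): row DHI3
-/

set_option autoImplicit false

namespace Pool.Agent.REV.H65

open MeasureTheory Set Pool.Agent.REV

/-- the weight is integrable on the whole interval -/
theorem w_ii {n : ℕ} (hn : 3 ≤ n) :
    IntervalIntegrable (fun r : ℝ => (1 - r ^ 2) ^ (((n : ℝ) - 4) / 2)) volume (-1) 1 := by
  have h1 : IntervalIntegrable (fun r : ℝ => (1 - r ^ 2) ^ (((n : ℝ) - 4) / 2)) volume 0 1 :=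
    (int3All n hn).2.2.1
  have h2 : IntervalIntegrable (fun r : ℝ => (1 - (-r) ^ 2) ^ (((n : ℝ) - 4) / 2)) volume (-0) (-1) :=
    (IntervalIntegrable.iff_comp_neg (by simp)).mp h1
  have h3 : (fun r : ℝ => (1 - (-r) ^ 2) ^ (((n : ℝ) - 4) / 2)) =
      fun r : ℝ => (1 - r ^ 2) ^ (((n : ℝ) - 4) / 2) := by
    funext r
    rw [neg_sq]
  rw [h3, neg_zero] at h2
  exact h2.symm.trans h1

theorem dhi3_ftc (e : ℝ) (he : -1 < e)
    (hw : IntervalIntegrable (fun r : ℝ => (1 - r ^ 2) ^ e) volume (-1) 1) (x y : ℝ)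
    (hx : -1 ≤ x) (hxy : x ≤ y) (hy : y ≤ 1) :
    IntervalIntegrable (fun b : ℝ => (1 - b ^ 2) ^ e * b) volume x y ∧
    ∫ b in x..y, (1 - b ^ 2) ^ e * b =
      (1 - x ^ 2) ^ (e + 1) / (2 * (e + 1)) - (1 - y ^ 2) ^ (e + 1) / (2 * (e + 1)) := by
  have he1 : 0 < e + 1 := by linarith
  have hi0 : IntervalIntegrable (fun b : ℝ => (1 - b ^ 2) ^ e * b) volume (-1) 1 :=
    hw.mul_continuousOn continuous_id.continuousOn
  have hi : IntervalIntegrable (fun b : ℝ => (1 - b ^ 2) ^ e * b) volume x y := by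
    refine hi0.mono_set ?_
    rw [uIcc_of_le hxy, uIcc_of_le (by norm_num : (-1 : ℝ) ≤ 1)]
    exact Icc_subset_Icc hx hy
  refine ⟨hi, ?_⟩
  have hcont : ContinuousOn (fun b : ℝ => -((1 - b ^ 2) ^ (e + 1) / (2 * (e + 1)))) (Icc x y) := by
    have h1 : Continuous fun b : ℝ => (1 - b ^ 2) ^ (e + 1) :=
      Continuous.rpow_const (by fun_prop) fun b => Or.inr he1.le
    exact (h1.div_const _).neg.continuousOn
  have hd : ∀ b ∈ Ioo x y, HasDerivAt (fun b : ℝ => -((1 - b ^ 2) ^ (e + 1) / (2 * (e + 1))))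
      ((1 - b ^ 2) ^ e * b) b := by
    intro b hb
    have hb1 : -1 < b := lt_of_le_of_lt hx hb.1
    have hb2 : b < 1 := lt_of_lt_of_le hb.2 hy
    have hpos : 0 < 1 - b ^ 2 := by nlinarith
    have h1 : HasDerivAt (fun b : ℝ => 1 - b ^ 2) (-(2 * b)) b := by
      have h := (hasDerivAt_pow 2 b).const_sub 1
      refine h.congr_deriv ?_
      ring
    have h2 := h1.rpow_const (p := e + 1) (Or.inl hpos.ne')
    have h3 := (h2.div_const (2 * (e + 1))).neg
    refine h3.congr_deriv ?_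
    have h4 : e + 1 - 1 = e := by ring
    rw [h4]
    field_simp
  rw [intervalIntegral.integral_eq_sub_of_hasDerivAt_of_le hxy hcont hd hi]
  ring

/-- DHI3 -/
theorem dhi3 : Dhi3Stmt := by
  intro n q p hn hp
  have hn' : (3 : ℝ) ≤ n := by exact_mod_cast hn
  obtain ⟨e, he⟩ : ∃ e : ℝ, e = ((n : ℝ) - 4) / 2 := ⟨_, rfl⟩
  have hw := w_ii hn
  rw [← he] at hw ⊢
  have he0 : -1 < e := by rw [he]; linarith
  have hee : 0 < e + 1 := by linarith
  have he1 : ((n : ℝ) - 2) / 2 = e + 1 := by rw [he]; ring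
  rw [he1]
  obtain ⟨β, hβ⟩ : ∃ β : ℝ, β = -(q / p) := ⟨_, rfl⟩
  obtain ⟨β', hβ'⟩ : ∃ β' : ℝ, β' = max (-1) (min 1 β) := ⟨_, rfl⟩
  have b1 : -1 ≤ β' := by
    rw [hβ']
    exact le_max_left _ _
  have b2 : β' ≤ 1 := by
    rw [hβ']
    exact max_le (by norm_num) (min_le_left _ _)
  have hq : q = -β * p := by rw [hβ]; field_simp
  have sn : ∀ b : ℝ, -1 < b → b < β' → Real.sign (q + p * b) = -1 := by
    intro b h1 h2
    apply Real.sign_of_neg
    have h3 : b < β := by
      by_contra hh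
      push Not at hh
      rw [hβ'] at h2
      rcases lt_max_iff.1 h2 with h | h
      · linarith
      · exact absurd (lt_of_lt_of_le h (min_le_right _ _)) (not_lt.2 hh)
    rw [hq]; nlinarith
  have sp : ∀ b : ℝ, β' < b → b < 1 → Real.sign (q + p * b) = 1 := by
    intro b h1 h2
    apply Real.sign_of_pos
    have h3 : β < b := by
      by_contra hh
      push Not at hh
      have h4 : b ≤ β' := by
        rw [hβ']
        exact le_trans (le_min h2.le hh) (le_max_right _ _)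
      linarith
    rw [hq]; nlinarith
  obtain ⟨i1, v1⟩ := dhi3_ftc e he0 hw (-1) β' le_rfl b1 b2
  obtain ⟨i2, v2⟩ := dhi3_ftc e he0 hw β' 1 b1 b2 le_rfl
  have c1 : EqOn (fun b : ℝ => -((1 - b ^ 2) ^ e * b))
      (fun b : ℝ => (1 - b ^ 2) ^ e * (Real.sign (q + p * b) * b)) (uIoo (-1) β') := by
    intro b hb
    rw [uIoo_of_le b1] at hb
    show -((1 - b ^ 2) ^ e * b) = (1 - b ^ 2) ^ e * (Real.sign (q + p * b) * b)
    rw [sn b hb.1 hb.2]
    ring
  have c2 : EqOn (fun b : ℝ => ((1 - b ^ 2) ^ e * b))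
      (fun b : ℝ => (1 - b ^ 2) ^ e * (Real.sign (q + p * b) * b)) (uIoo β' 1) := by
    intro b hb
    rw [uIoo_of_le b2] at hb
    show ((1 - b ^ 2) ^ e * b) = (1 - b ^ 2) ^ e * (Real.sign (q + p * b) * b)
    rw [sp b hb.1 hb.2]
    ring
  have j1 := i1.neg.congr_uIoo c1
  have j2 := i2.congr_uIoo c2
  rw [← intervalIntegral.integral_add_adjacent_intervals j1 j2,
    ← intervalIntegral.integral_congr_uIoo c1, ← intervalIntegral.integral_congr_uIoo c2,
    intervalIntegral.integral_neg, v1, v2]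
  have z1 : (1 - (-1 : ℝ) ^ 2) ^ (e + 1) = 0 := by
    have h : (1 - (-1 : ℝ) ^ 2) = 0 := by norm_num
    rw [h]
    exact Real.zero_rpow hee.ne'
  have z2 : (1 - (1 : ℝ) ^ 2) ^ (e + 1) = 0 := by
    have h : (1 - (1 : ℝ) ^ 2) = 0 := by norm_num
    rw [h]
    exact Real.zero_rpow hee.ne'
  have z3 : 1 - β' ^ 2 = max (1 - (q / p) ^ 2) 0 := by
    have hqp : q / p = -β := by rw [hβ]; ring
    rw [hqp, neg_sq]
    rcases le_total β (-1) with h | h
    · have h5 : β' = -1 := by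
        rw [hβ']
        exact max_eq_left ((min_le_right _ _).trans h)
      rw [h5, max_eq_right (by nlinarith)]
      norm_num
    · rcases le_total β 1 with h' | h'
      · have h5 : β' = β := by
          rw [hβ', min_eq_right h', max_eq_right h]
        rw [h5, max_eq_left (by nlinarith)]
      · have h5 : β' = 1 := by
          rw [hβ', min_eq_left h', max_eq_right (by norm_num)]
        rw [h5, max_eq_right (by nlinarith)]
        norm_num
  rw [z1, z2, z3]
  have hn2 : (n : ℝ) - 2 = 2 * (e + 1) := by rw [he]; ring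
  rw [hn2]
  have h6 : e + 1 ≠ 0 := hee.ne'
  field_simp
  ring

end Pool.Agent.REV.H65
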