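import Pool.Agent.REV.StmtsU3

set_option autoImplicit false

/-!
# REV, row KN3: sign lemma for `kk`, quantitative, dimension `n ≥ 3`
-/

namespace Pool.Agent.REV.H65

open Pool.Agent.REV Set MeasureTheory
open scoped Topology Interval

/-- a weight times an antitone function is integrable -/
theorem kn3_int (k γ : ℝ → ℝ) (hk : IntervalIntegrable k volume 0 1)
    (hγ : AntitoneOn γ (Icc 0 1)) : IntervalIntegrable (fun r => k r * γ r) volume 0 1 := by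
  have h01 : (0 : ℝ) ≤ 1 := zero_le_one
  have hγi : IntervalIntegrable γ volume 0 1 := by
    refine AntitoneOn.intervalIntegrable ?_
    rwa [uIcc_of_le h01]
  rw [intervalIntegrable_iff_integrableOn_Ioc_of_le h01] at hk hγi ⊢
  have h1 : Integrable (fun r => γ r * k r) (volume.restrict (Ioc (0 : ℝ) 1)) := by
    refine Integrable.bdd_mul (c := max |γ 0| |γ 1|) hk hγi.aestronglyMeasurable ?_
    refine (ae_restrict_iff' measurableSet_Ioc).2 (Filter.Eventually.of_forall ?_)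
    intro r hr
    have hrm : r ∈ Icc (0 : ℝ) 1 := ⟨hr.1.le, hr.2⟩
    have e1 : γ r ≤ γ 0 := hγ ⟨le_rfl, h01⟩ hrm hr.1.le
    have e2 : γ 1 ≤ γ r := hγ hrm ⟨h01, le_rfl⟩ hr.2
    rw [Real.norm_eq_abs, abs_le]
    constructor
    · have h3 : -|γ 1| ≤ γ 1 := neg_abs_le _
      have h4 : |γ 1| ≤ max |γ 0| |γ 1| := le_max_right _ _
      linarith
    · have h3 : γ 0 ≤ |γ 0| := le_abs_self _
      have h4 : |γ 0| ≤ max |γ 0| |γ 1| := le_max_left _ _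
      linarith
  refine h1.congr (Filter.Eventually.of_forall fun r => ?_)
  exact mul_comm _ _

theorem kn3 (ki : Ki3Stmt) : Kn3Stmt := by
  intro n γ hn hγ r1 r2 h1 h12 h2
  obtain ⟨-, hki, hfac, hint⟩ := ki n hn
  have hn' : (3 : ℝ) ≤ n := by exact_mod_cast hn
  have hn1 : (0 : ℝ) < (n : ℝ) - 1 := by linarith
  have hs : 0 < Real.sqrt ((n : ℝ) - 1) := Real.sqrt_pos.2 hn1
  obtain ⟨r0, hr0⟩ : ∃ r0 : ℝ, r0 = 1 / Real.sqrt ((n : ℝ) - 1) := ⟨_, rfl⟩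
  have hr0p : 0 < r0 := by rw [hr0]; positivity
  have hr0sq : ((n : ℝ) - 1) * r0 ^ 2 = 1 := by
    rw [hr0, div_pow, Real.sq_sqrt hn1.le]
    field_simp
  have hr0lt : r0 < 1 := by
    by_contra h
    push Not at h
    nlinarith
  have hr20 : 0 ≤ r2 := h1.trans h12
  have hr2r0 : r2 ≤ r0 := by
    by_contra h
    push Not at h
    have : r0 ^ 2 < r2 ^ 2 := by nlinarith
    nlinarith
  have h01 : (0 : ℝ) ∈ Icc (0 : ℝ) 1 := ⟨le_rfl, zero_le_one⟩
  have hr0m : r0 ∈ Icc (0 : ℝ) 1 := ⟨hr0p.le, hr0lt.le⟩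
  have hr1lt : r1 < 1 := lt_of_le_of_lt (h12.trans hr2r0) hr0lt
  have hr1m : r1 ∈ Icc (0 : ℝ) 1 := ⟨h1, hr1lt.le⟩
  have hr2m : r2 ∈ Icc (0 : ℝ) 1 := ⟨hr20, hr2r0.trans hr0lt.le⟩
  -- signs
  have hpos : ∀ r ∈ Ico (0 : ℝ) 1, r ≤ r0 → 0 ≤ kk n r := by
    intro r hr hle
    rw [hfac r hr]
    have e1 : 0 ≤ 1 - r ^ 2 := by nlinarith [hr.1, hr.2]
    have e2 : r ^ 2 ≤ r0 ^ 2 := by nlinarith [hr.1]
    have e3 : 0 ≤ 1 - ((n : ℝ) - 1) * r ^ 2 := by nlinarith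
    exact mul_nonneg (Real.rpow_nonneg e1 _) e3
  have hneg : ∀ r ∈ Ico (0 : ℝ) 1, r0 ≤ r → kk n r ≤ 0 := by
    intro r hr hle
    rw [hfac r hr]
    have e1 : 0 ≤ 1 - r ^ 2 := by nlinarith [hr.1, hr.2]
    have e2 : r0 ^ 2 ≤ r ^ 2 := by nlinarith [hr.1]
    have e3 : 1 - ((n : ℝ) - 1) * r ^ 2 ≤ 0 := by nlinarith
    exact mul_nonpos_of_nonneg_of_nonpos (Real.rpow_nonneg e1 _) e3
  -- integrability
  have hkγ : IntervalIntegrable (fun r => kk n r * γ r) volume 0 1 := kn3_int (kk n) γ hki hγ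
  have hkc : IntervalIntegrable (fun r => kk n r * γ r0) volume 0 1 := hki.mul_const _
  have e : (fun r : ℝ => kk n r * (γ r - γ r0)) = fun r => kk n r * γ r - kk n r * γ r0 := by
    funext r
    ring
  have hGi : IntervalIntegrable (fun r => kk n r * (γ r - γ r0)) volume 0 1 := by
    rw [e]
    exact hkγ.sub hkc
  have hk0 : ∫ r in (0 : ℝ)..1, kk n r = 0 := by
    rw [hint 1 ⟨zero_le_one, le_rfl⟩]
    have : ((1 : ℝ) - 1 ^ 2) = 0 := by norm_num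
    rw [this, Real.zero_rpow (by
      have : (0 : ℝ) < ((n : ℝ) - 2) / 2 := by linarith
      exact this.ne'), mul_zero]
  have hsplit : ∫ r in (0 : ℝ)..1, kk n r * γ r = ∫ r in (0 : ℝ)..1, kk n r * (γ r - γ r0) := by
    rw [e, intervalIntegral.integral_sub hkγ hkc, intervalIntegral.integral_mul_const,
      hk0]
    ring
  rw [hsplit]
  have hsub1 : uIcc (0 : ℝ) r1 ⊆ uIcc (0 : ℝ) 1 := by
    rw [uIcc_of_le h1, uIcc_of_le zero_le_one]
    exact Icc_subset_Icc le_rfl hr1m.2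
  have hsub2 : uIcc r1 (1 : ℝ) ⊆ uIcc (0 : ℝ) 1 := by
    rw [uIcc_of_le hr1m.2, uIcc_of_le zero_le_one]
    exact Icc_subset_Icc h1 le_rfl
  have hG1 := hGi.mono_set hsub1
  have hG2 := hGi.mono_set hsub2
  rw [← intervalIntegral.integral_add_adjacent_intervals hG1 hG2]
  have hA : r1 * (1 - r1 ^ 2) ^ (((n : ℝ) - 2) / 2) * (γ r1 - γ r2) ≤
      ∫ r in (0 : ℝ)..r1, kk n r * (γ r - γ r0) := by
    rw [← hint r1 hr1m, ← intervalIntegral.integral_mul_const]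
    refine intervalIntegral.integral_mono_on h1 ((hki.mono_set hsub1).mul_const _) hG1 ?_
    intro r hr
    have hrm : r ∈ Icc (0 : ℝ) 1 := ⟨hr.1, hr.2.trans hr1m.2⟩
    have hrm' : r ∈ Ico (0 : ℝ) 1 := ⟨hr.1, lt_of_le_of_lt hr.2 hr1lt⟩
    refine mul_le_mul_of_nonneg_left ?_ (hpos r hrm' (hr.2.trans (h12.trans hr2r0)))
    have e1 : γ r1 ≤ γ r := hγ hrm hr1m hr.2
    have e2 : γ r0 ≤ γ r2 := hγ hr2m hr0m hr2r0
    linarith
  have hB : 0 ≤ ∫ r in r1..(1 : ℝ), kk n r * (γ r - γ r0) := by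
    refine intervalIntegral.integral_nonneg_of_ae_restrict hr1m.2 ?_
    have hne : ∀ᵐ r : ℝ, r ≠ 1 := by
      have : (volume : Measure ℝ) {1} = 0 := by simp
      exact (measure_eq_zero_iff_ae_notMem).1 this
    refine (ae_restrict_iff' measurableSet_Icc).2 ?_
    filter_upwards [hne] with r hr1 hr
    have hrm : r ∈ Icc (0 : ℝ) 1 := ⟨h1.trans hr.1, hr.2⟩
    have hrm' : r ∈ Ico (0 : ℝ) 1 := ⟨h1.trans hr.1, lt_of_le_of_ne hr.2 hr1⟩
    show 0 ≤ kk n r * (γ r - γ r0)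
    rcases le_total r r0 with h | h
    · exact mul_nonneg (hpos r hrm' h) (sub_nonneg.2 (hγ hrm hr0m h))
    · exact mul_nonneg_of_nonpos_of_nonpos (hneg r hrm' h) (sub_nonpos.2 (hγ hr0m hrm h))
  linarith

end Pool.Agent.REV.H65
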