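import Pool.Agent.REV.StmtsA2

/-!
# Row RAB of the squad REV (problem MP_bbfd73_gt): RA of a function with power bounds
-/

set_option autoImplicit false

namespace Pool.Agent.REV.H65

open Set MeasureTheory
open Pool.Agent.REV

theorem rab (int : IntStmt) (pwi : PwiStmt) : RabStmt := by
  intro n α β M c f hn hα0 hα1 hβ0 hβ hM hAd hSt hc0 hc1
  obtain ⟨_, hint⟩ := int n f hn hAd
  obtain ⟨hI, _, _, _⟩ := hint c hc0.le hc1
  obtain ⟨hp1, hp2⟩ := pwi.1 α hα0 hα1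
  have h1 : RA n f c ≤ ∫ r in (0 : ℝ)..1, M * c ^ (-α) * r ^ (-α) := by
    unfold RA
    refine intervalIntegral.integral_mono_on_of_le_Ioo zero_le_one hI (hp1.const_mul _) ?_
    intro r hr
    have hr0 := hr.1
    have hr1 := hr.2
    have hrc0 : 0 < r * c := mul_pos hr0 hc0
    have hrc1 : r * c < 1 := by
      calc r * c ≤ r * 1 := mul_le_mul_of_nonneg_left hc1 hr0.le
        _ = r := mul_one r
        _ < 1 := hr1
    have hf := hSt (r * c) hrc0 hrc1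
    have hx0 : 0 < 1 - (r * c) ^ 2 := by nlinarith
    have hx1 : 1 - (r * c) ^ 2 ≤ 1 := by nlinarith [sq_nonneg (r * c)]
    have hy0 : 0 ≤ 1 - r ^ 2 := by nlinarith
    have hyx : 1 - r ^ 2 ≤ 1 - (r * c) ^ 2 := by
      have h2 : (r * c) ^ 2 ≤ r ^ 2 := by
        have h3 : r * c ≤ r := by
          calc r * c ≤ r * 1 := mul_le_mul_of_nonneg_left hc1 hr0.le
            _ = r := mul_one r
        exact pow_le_pow_left₀ hrc0.le h3 2
      linarith
    have hp0 : 0 ≤ ((n : ℝ) - 2) / 2 := le_trans hβ0 hβ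
    have hw : (1 - r ^ 2) ^ (((n : ℝ) - 2) / 2) ≤ (1 - (r * c) ^ 2) ^ β :=
      (Real.rpow_le_rpow hy0 hyx hp0).trans
        (Real.rpow_le_rpow_of_exponent_ge hx0 hx1 hβ)
    have hb0 : 0 ≤ M * (r * c) ^ (-α) * (1 - (r * c) ^ 2) ^ (-β) :=
      mul_nonneg (mul_nonneg hM (Real.rpow_nonneg hrc0.le _)) (Real.rpow_nonneg hx0.le _)
    have hinv : (1 - (r * c) ^ 2) ^ β * (1 - (r * c) ^ 2) ^ (-β) = 1 := by
      rw [← Real.rpow_add hx0, add_neg_cancel, Real.rpow_zero]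
    calc (1 - r ^ 2) ^ (((n : ℝ) - 2) / 2) * f (r * c)
        ≤ (1 - r ^ 2) ^ (((n : ℝ) - 2) / 2) * (M * (r * c) ^ (-α) * (1 - (r * c) ^ 2) ^ (-β)) :=
          mul_le_mul_of_nonneg_left hf (Real.rpow_nonneg hy0 _)
      _ ≤ (1 - (r * c) ^ 2) ^ β * (M * (r * c) ^ (-α) * (1 - (r * c) ^ 2) ^ (-β)) :=
          mul_le_mul_of_nonneg_right hw hb0
      _ = M * (r * c) ^ (-α) * ((1 - (r * c) ^ 2) ^ β * (1 - (r * c) ^ 2) ^ (-β)) := by ring
      _ = M * c ^ (-α) * r ^ (-α) := by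
          rw [hinv, Real.mul_rpow hr0.le hc0.le]
          ring
  rw [intervalIntegral.integral_const_mul, hp2] at h1
  calc RA n f c ≤ M * c ^ (-α) * (1 / (1 - α)) := h1
    _ = M / (1 - α) * c ^ (-α) := by ring

end Pool.Agent.REV.H65
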