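import Pool.Agent.REV.StmtsA1

/-!
# Row STA of the squad REV (problem MP_bbfd73_gt): the lower comparison gives an upper comparison
-/

set_option autoImplicit false

namespace Pool.Agent.REV.H65

open Set Pool.Agent.REV

theorem sta_alg (i : ℕ) (hi : 1 ≤ i) (C1 C2 q a b : ℝ) (hq : 0 < q) :
    C1 * (q ^ (-(1 / 2) : ℝ) * a) ^ i +
      C2 * (q ^ (-(3 / 2) : ℝ) * b * (q ^ (-(1 / 2) : ℝ) * a) ^ (i - 1)) =
    q ^ (-(((i : ℝ) + 2) / 2)) * (C1 * (q * a ^ i) + C2 * (b * a ^ (i - 1))) := by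
  have e1 : (q ^ (-(1 / 2) : ℝ)) ^ i = q ^ (-(((i : ℝ) + 2) / 2)) * q := by
    rw [← Real.rpow_natCast (q ^ (-(1 / 2) : ℝ)) i, ← Real.rpow_mul hq.le]
    have h : q ^ (-(((i : ℝ) + 2) / 2)) * q = q ^ (-(((i : ℝ) + 2) / 2)) * q ^ (1 : ℝ) := by
      rw [Real.rpow_one]
    rw [h, ← Real.rpow_add hq]
    congr 1
    ring
  have e2 : q ^ (-(3 / 2) : ℝ) * (q ^ (-(1 / 2) : ℝ)) ^ (i - 1) = q ^ (-(((i : ℝ) + 2) / 2)) := by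
    rw [← Real.rpow_natCast (q ^ (-(1 / 2) : ℝ)) (i - 1), ← Real.rpow_mul hq.le,
      ← Real.rpow_add hq]
    congr 1
    rw [Nat.cast_sub hi]
    push_cast
    ring
  rw [mul_pow, mul_pow, e1]
  calc C1 * (q ^ (-(((i : ℝ) + 2) / 2)) * q * a ^ i) +
        C2 * (q ^ (-(3 / 2) : ℝ) * b * ((q ^ (-(1 / 2) : ℝ)) ^ (i - 1) * a ^ (i - 1)))
      = q ^ (-(((i : ℝ) + 2) / 2)) * (C1 * (q * a ^ i)) +
        (q ^ (-(3 / 2) : ℝ) * (q ^ (-(1 / 2) : ℝ)) ^ (i - 1)) * (C2 * (b * a ^ (i - 1))) := by ring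
    _ = _ := by rw [e2]; ring

theorem sta (cva : CvaStmt) (cvb : CvbStmt) (mra : MraStmt) (lwa : LwaStmt) : StaStmt := by
  intro n i C1 C2 d f hn hi hin hC1 hC2 hd hf hL
  have hg : (0 : ℝ) < 1 + d := by linarith
  obtain ⟨hnn, hmo, _⟩ := mra n (1 + d) f hn hg hf
  obtain ⟨hRA, hRB⟩ := hmo hL
  obtain ⟨lam, hlam, hl0⟩ : ∃ lam : ℝ, lam = ((i : ℝ) + 2) / ((n : ℝ) + 1) ∧ 0 ≤ lam :=
    ⟨_, rfl, by positivity⟩
  have hW := lwa n i d hin hd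
  rw [← hlam] at hW ⊢
  have hld : 0 ≤ lam * d := mul_nonneg hl0 hd
  have hb0 : 0 ≤ 1 / (1 + lam * d) := by positivity
  have hsq : ∀ t ∈ Icc (0 : ℝ) 1, 0 ≤ 1 - t ^ 2 ∧ 1 - t ^ 2 ≤ 1 ∧ t ^ 2 ∈ Icc (0 : ℝ) 1 := by
    intro t ht
    have h1 : t ^ 2 ≤ 1 := by nlinarith [ht.1, ht.2]
    exact ⟨by linarith, by nlinarith [sq_nonneg t], sq_nonneg t, h1⟩
  have hcm : ∀ t ∈ Icc (0 : ℝ) 1, Real.sqrt (1 - t ^ 2) ∈ Icc (0 : ℝ) 1 := by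
    intro t ht
    refine ⟨Real.sqrt_nonneg _, ?_⟩
    rw [Real.sqrt_le_one]
    exact (hsq t ht).2.1
  have key : ∀ t ∈ Icc (0 : ℝ) 1,
      El n (1 / (1 + lam * d)) (TT n i C1 C2 f) t =
        ((1 + (1 / (1 + lam * d) - 1) * t ^ 2) ^ (((n : ℝ) + 1) / 2) *
          (1 + d * (1 - t ^ 2)) ^ (-(((i : ℝ) + 2) / 2))) *
        (C1 * ((1 + d * (1 - t ^ 2)) * RA' n (1 + d) f (Real.sqrt (1 - t ^ 2)) ^ i) +
          C2 * (RB' n (1 + d) f (Real.sqrt (1 - t ^ 2)) *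
            RA' n (1 + d) f (Real.sqrt (1 - t ^ 2)) ^ (i - 1))) := by
    intro t ht
    have hc := hcm t ht
    have hA := cva n (1 + d) _ f hn hg hc.1 hc.2
    have hB := cvb n (1 + d) _ f hn hg hc.1 hc.2
    have hs2 : Real.sqrt (1 - t ^ 2) ^ 2 = 1 - t ^ 2 := Real.sq_sqrt (hsq t ht).1
    have hq : 1 + (1 + d - 1) * Real.sqrt (1 - t ^ 2) ^ 2 = 1 + d * (1 - t ^ 2) := by
      rw [hs2]; ring
    rw [hq] at hA hB
    have hq0 : 0 < 1 + d * (1 - t ^ 2) := by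
      have := mul_nonneg hd (hsq t ht).1
      linarith
    unfold El TT
    rw [hA, hB, sta_alg i hi C1 C2 _ _ _ hq0]
    ring
  intro t₁ h₁ t₂ h₂ h12
  rw [key t₁ h₁, key t₂ h₂]
  have hx : t₁ ^ 2 ≤ t₂ ^ 2 := by nlinarith [h₁.1, h₂.1]
  have hWle := hW (hsq t₁ h₁).2.2 (hsq t₂ h₂).2.2 hx
  have hc12 : Real.sqrt (1 - t₂ ^ 2) ≤ Real.sqrt (1 - t₁ ^ 2) :=
    Real.sqrt_le_sqrt (by linarith)
  have hAle := hRA (hcm t₂ h₂) (hcm t₁ h₁) hc12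
  have hBle := hRB (hcm t₂ h₂) (hcm t₁ h₁) hc12
  have hA2 := (hnn _ (hcm t₂ h₂)).1
  have hB2 := (hnn _ (hcm t₂ h₂)).2
  have hA1 := (hnn _ (hcm t₁ h₁)).1
  have hB1 := (hnn _ (hcm t₁ h₁)).2
  have hq2 : 0 ≤ 1 + d * (1 - t₂ ^ 2) := by
    have := mul_nonneg hd (hsq t₂ h₂).1
    linarith
  have hq12 : 1 + d * (1 - t₂ ^ 2) ≤ 1 + d * (1 - t₁ ^ 2) := by
    have := mul_le_mul_of_nonneg_left hx hd
    linarith
  have hq1 : 0 ≤ 1 + d * (1 - t₁ ^ 2) := le_trans hq2 hq12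
  have hbase : 0 ≤ 1 + (1 / (1 + lam * d) - 1) * t₁ ^ 2 := by
    have h1 := (hsq t₁ h₁).1
    have h2 := mul_nonneg hb0 (sq_nonneg t₁)
    nlinarith
  refine mul_le_mul hWle ?_ ?_ ?_
  · refine add_le_add ?_ ?_
    · refine mul_le_mul_of_nonneg_left ?_ hC1
      refine mul_le_mul hq12 (pow_le_pow_left₀ hA2 hAle i) (pow_nonneg hA2 i) hq1
    · refine mul_le_mul_of_nonneg_left ?_ hC2
      exact mul_le_mul hBle (pow_le_pow_left₀ hA2 hAle (i - 1)) (pow_nonneg hA2 _) hB1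
  · refine add_nonneg ?_ ?_
    · exact mul_nonneg hC1 (mul_nonneg hq2 (pow_nonneg hA2 _))
    · exact mul_nonneg hC2 (mul_nonneg hB2 (pow_nonneg hA2 _))
  · exact mul_nonneg (Real.rpow_nonneg hbase _) (Real.rpow_nonneg hq1 _)

end Pool.Agent.REV.H65
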