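import Pool.Agent.REV.StmtsG2

/-!
# Row LWU of the squad REV (problem MP_bbfd73_gt): the law of the height on the sphere of u^perp
-/

set_option autoImplicit false

open MeasureTheory Module Set Filter
open scoped RealInnerProductSpace

namespace Pool.Agent.REV.H65

open Pool.Agent.REV Pool.Agent.BPH Pool.Agent.Helper55_PB Pool.Agent.Helper28_PB

theorem lwu_wcont {p : ℝ} (hp : 0 ≤ p) : Continuous (fun x : ℝ => (1 - x ^ 2) ^ p) :=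
  Continuous.rpow_const (by fun_prop) fun _ => Or.inr hp

theorem lwu_ii {p : ℝ} (hp : 0 ≤ p) {ψ : ℝ → ℝ} (hψ : BM ψ) (a b : ℝ) :
    IntervalIntegrable (fun x : ℝ => (1 - x ^ 2) ^ p * ψ |x|) volume a b := by
  obtain ⟨hm, C, hC⟩ := hψ
  refine IntervalIntegrable.continuousOn_mul ?_ (lwu_wcont hp).continuousOn
  refine (intervalIntegrable_const (c := C)).mono_fun ?_ ?_
  · exact (hm.comp measurable_norm).aestronglyMeasurable
  · refine Filter.Eventually.of_forall fun x => ?_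
    have h1 := hC |x|
    show ‖ψ |x|‖ ≤ ‖C‖
    rw [Real.norm_eq_abs, Real.norm_eq_abs]
    exact h1.trans (le_abs_self C)

theorem lwu_even {p : ℝ} (hp : 0 ≤ p) {ψ : ℝ → ℝ} (hψ : BM ψ) :
    ∫ x in (-1 : ℝ)..1, (1 - x ^ 2) ^ p * ψ |x| =
      2 * ∫ x in (0 : ℝ)..1, (1 - x ^ 2) ^ p * ψ x := by
  have h1 := intervalIntegral.integral_add_adjacent_intervals (lwu_ii hp hψ (-1) 0)
    (lwu_ii hp hψ 0 1)
  have h2 : ∫ x in (-1 : ℝ)..0, (1 - x ^ 2) ^ p * ψ |x| =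
      ∫ x in (0 : ℝ)..1, (1 - x ^ 2) ^ p * ψ |x| := by
    have h3 := intervalIntegral.integral_comp_neg (a := (0 : ℝ)) (b := 1)
      (f := fun x : ℝ => (1 - x ^ 2) ^ p * ψ |x|)
    rw [neg_zero] at h3
    rw [← h3]
    refine intervalIntegral.integral_congr fun x _ => ?_
    show (1 - (-x) ^ 2) ^ p * ψ |(-x)| = (1 - x ^ 2) ^ p * ψ |x|
    rw [neg_sq, abs_neg]
  have h4 : ∫ x in (0 : ℝ)..1, (1 - x ^ 2) ^ p * ψ |x| =
      ∫ x in (0 : ℝ)..1, (1 - x ^ 2) ^ p * ψ x := by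
    refine intervalIntegral.integral_congr fun x hx => ?_
    rw [uIcc_of_le zero_le_one] at hx
    show (1 - x ^ 2) ^ p * ψ |x| = (1 - x ^ 2) ^ p * ψ x
    rw [abs_of_nonneg hx.1]
  rw [← h1, h2, h4]
  ring

theorem lwu_pos {p : ℝ} (hp : 0 ≤ p) : 0 < ∫ x in (0 : ℝ)..1, (1 - x ^ 2) ^ p := by
  refine intervalIntegral.intervalIntegral_pos_of_pos_on
    ((lwu_wcont hp).intervalIntegrable 0 1) ?_ zero_lt_one
  intro x hx
  exact Real.rpow_pos_of_pos (by nlinarith [hx.1, hx.2]) _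

theorem lwu (msu : MsuStmt) (lwh : LwhStmt) : LwuStmt := by
  intro E _ _ _ _ _ u e' hn hu he hue
  have hn4 : (4 : ℝ) ≤ finrank ℝ E := by exact_mod_cast hn
  have hp : 0 ≤ ((finrank ℝ E : ℝ) - 4) / 2 := by linarith
  have hkpos := lwu_pos hp
  refine ⟨inv_pos.mpr hkpos, ?_⟩
  intro ψ hψ
  have hu0 : u ≠ 0 := by
    intro h
    rw [h, norm_zero] at hu
    exact zero_ne_one hu
  have heU : e' ∈ (ℝ ∙ u)ᗮ := by
    rw [Submodule.mem_orthogonal_singleton_iff_inner_right]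
    exact hue
  have hUne : (ℝ ∙ u)ᗮ ≠ ⊥ := by
    intro h
    rw [h] at heU
    have : e' = 0 := by simpa using heU
    rw [this, norm_zero] at he
    exact zero_ne_one he
  have hfr : finrank ℝ ((ℝ ∙ u)ᗮ : Submodule ℝ E) + 1 = finrank ℝ E := by
    have h1 := (ℝ ∙ u).finrank_add_finrank_orthogonal
    rw [finrank_span_singleton hu0] at h1
    omega
  have hfc : (finrank ℝ ((ℝ ∙ u)ᗮ : Submodule ℝ E) : ℝ) = (finrank ℝ E : ℝ) - 1 := by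
    have : ((finrank ℝ ((ℝ ∙ u)ᗮ : Submodule ℝ E) : ℝ)) + 1 = (finrank ℝ E : ℝ) := by
      exact_mod_cast hfr
    linarith
  have hT : Tst (fun x : E => ψ |⟪e', x⟫|) := by
    refine ⟨?_, ?_⟩
    · exact hψ.1.comp ((continuous_const.inner continuous_id).abs.measurable)
    · obtain ⟨C, hC⟩ := hψ.2
      exact ⟨C, fun x => hC _⟩
  rw [msu _ hUne _ hT]
  have hBM : BM (fun x : ℝ => ψ |x|) := by
    obtain ⟨hm, C, hC⟩ := hψ
    exact ⟨hm.comp continuous_abs.measurable, C, fun x => hC _⟩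
  have h1 := lwh ((ℝ ∙ u)ᗮ : Submodule ℝ E) (by omega) ⟨e', heU⟩ he (fun x : ℝ => ψ |x|) hBM
  have hexp : ((finrank ℝ ((ℝ ∙ u)ᗮ : Submodule ℝ E) : ℝ) - 3) / 2 =
      ((finrank ℝ E : ℝ) - 4) / 2 := by
    rw [hfc]
    ring
  rw [hexp] at h1
  have hone : BM (fun _ : ℝ => (1 : ℝ)) := ⟨measurable_const, 1, fun _ => by simp⟩
  have hw := lwu_even hp hone
  have e1 : ∫ x in (-1 : ℝ)..1, (1 - x ^ 2) ^ (((finrank ℝ E : ℝ) - 4) / 2) =
      2 * ∫ x in (0 : ℝ)..1, (1 - x ^ 2) ^ (((finrank ℝ E : ℝ) - 4) / 2) := by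
    simpa only [mul_one] using hw
  have h2 : ∫ x in (-1 : ℝ)..1, (1 - x ^ 2) ^ (((finrank ℝ E : ℝ) - 4) / 2) * ψ |x| =
      2 * ∫ x in (0 : ℝ)..1, (1 - x ^ 2) ^ (((finrank ℝ E : ℝ) - 4) / 2) * ψ x :=
    lwu_even hp hψ
  have h3 : ∫ y : ((ℝ ∙ u)ᗮ : Submodule ℝ E), ψ |⟪e', (y : E)⟫| ∂sph ((ℝ ∙ u)ᗮ : Submodule ℝ E) =
      ∫ x : ((ℝ ∙ u)ᗮ : Submodule ℝ E), (fun x : ℝ => ψ |x|)
        ⟪(⟨e', heU⟩ : ((ℝ ∙ u)ᗮ : Submodule ℝ E)), x⟫ ∂sph ((ℝ ∙ u)ᗮ : Submodule ℝ E) := rfl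
  rw [h3]
  rw [e1] at h1
  have h4 := h1.trans h2
  unfold kap
  rw [eq_comm, inv_mul_eq_iff_eq_mul₀ hkpos.ne']
  linarith

end Pool.Agent.REV.H65
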