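import Pool.Agent.REV.StmtsX

/-!
# Row DET of the squad REV (problem MP_bbfd73_gt): functions with an axis of rotation
-/

set_option autoImplicit false

open MeasureTheory Module Set Filter
open scoped RealInnerProductSpace Topology

namespace Pool.Agent.REV.H65

open Pool.Agent.REV

section

variable {E : Type} [NormedAddCommGroup E] [InnerProductSpace ℝ E] [FiniteDimensional ℝ E]

/-- a rotation about the axis `e` which sends `m` to `m'` -/
theorem rot_exists {e m m' : E} (hm : ‖m‖ = 1) (hm' : ‖m'‖ = 1) (h1 : ⟪e, m⟫ = 0)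
    (h2 : ⟪e, m'⟫ = 0) : ∃ T : E ≃ₗᵢ[ℝ] E, T e = e ∧ T m = m' := by
  refine ⟨(ℝ ∙ (m - m'))ᗮ.reflection, ?_, ?_⟩
  · refine Submodule.reflection_mem_subspace_eq_self ?_
    rw [Submodule.mem_orthogonal_singleton_iff_inner_left, inner_sub_right, h1, h2, sub_zero]
  · exact Submodule.reflection_sub (by rw [hm, hm'])

/-- the value at a vector which is not orthogonal to the axis -/
theorem det_val {e m : E} (he : ‖e‖ = 1) (hm : ‖m‖ = 1) (hem : ⟪e, m⟫ = 0) (g : E → ℝ)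
    (hh : ∀ (t : ℝ) (w : E), g (t • w) = |t| * g w)
    (hT : ∀ T : E ≃ₗᵢ[ℝ] E, T e = e → ∀ w : E, g (T w) = g w) (w : E) (hw : ⟪e, w⟫ ≠ 0) :
    g w = |⟪e, w⟫| * g (e + (‖w - ⟪e, w⟫ • e‖ / |⟪e, w⟫|) • m) := by
  obtain ⟨a, ha⟩ : ∃ a : ℝ, a = ⟪e, w⟫ := ⟨_, rfl⟩
  rw [← ha] at hw ⊢
  have hee : ⟪e, e⟫ = 1 := by
    rw [real_inner_self_eq_norm_sq, he, one_pow]
  obtain ⟨w', hw'⟩ : ∃ w' : E, w' = w - a • e := ⟨_, rfl⟩
  rw [← hw']
  have hew' : ⟪e, w'⟫ = 0 := by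
    rw [hw', inner_sub_right, real_inner_smul_right, hee, ← ha]
    ring
  have hww : w = a • e + w' := by
    rw [hw']
    abel
  obtain ⟨b, hb⟩ : ∃ b : ℝ, b = ‖w'‖ / |a| := ⟨_, rfl⟩
  rw [← hb]
  have key : ∃ m' : E, ‖m'‖ = 1 ∧ ⟪e, m'⟫ = 0 ∧ a⁻¹ • w' = b • m' := by
    by_cases h0 : w' = 0
    · refine ⟨m, hm, hem, ?_⟩
      rw [hb, h0, norm_zero, zero_div, zero_smul, smul_zero]
    · have hn : ‖w'‖ ≠ 0 := norm_ne_zero_iff.mpr h0
      have hapos : 0 < |a| := abs_pos.mpr hw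
      refine ⟨(|a| / ‖w'‖ * a⁻¹) • w', ?_, ?_, ?_⟩
      · rw [norm_smul, norm_mul, norm_div, norm_inv, norm_norm, Real.norm_eq_abs, Real.norm_eq_abs,
          abs_abs]
        field_simp
      · rw [real_inner_smul_right, hew', mul_zero]
      · rw [hb, smul_smul]
        congr 1
        field_simp
  obtain ⟨m', hm', hem', hmm⟩ := key
  obtain ⟨T, hTe, hTm⟩ := rot_exists hm hm' hem hem'
  have h1 : w = a • T (e + b • m) := by
    rw [map_add, map_smul, hTe, hTm, ← hmm, smul_add, smul_smul, mul_inv_cancel₀ hw, one_smul]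
    exact hww
  calc g w = g (a • T (e + b • m)) := by rw [← h1]
    _ = |a| * g (e + b • m) := by rw [hh, hT T hTe]

end

/-- DET -/
theorem det : DetStmt := by
  intro E _ _ _ e m he hm hem g₁ g₂ hc₁ hc₂ hh₁ hh₂ hT₁ hT₂ hg w
  have hne : ∀ w : E, ⟪e, w⟫ ≠ 0 → g₁ w = g₂ w := by
    intro w hw
    rw [det_val he hm hem g₁ hh₁ hT₁ w hw, det_val he hm hem g₂ hh₂ hT₂ w hw,
      hg _ (div_nonneg (norm_nonneg _) (abs_nonneg _))]
  by_cases hw : ⟪e, w⟫ = 0
  · have hee : ⟪e, e⟫ = 1 := by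
      rw [real_inner_self_eq_norm_sq, he, one_pow]
    have hc : Continuous fun s : ℝ => w + s • e := by fun_prop
    have h1 : Tendsto (fun s : ℝ => g₁ (w + s • e)) (𝓝[≠] 0) (𝓝 (g₁ w)) := by
      have h2 : Tendsto (fun s : ℝ => g₁ (w + s • e)) (𝓝 0) (𝓝 (g₁ (w + (0 : ℝ) • e))) :=
        (hc₁.comp hc).tendsto 0
      rw [zero_smul, add_zero] at h2
      exact h2.mono_left nhdsWithin_le_nhds
    have h3 : Tendsto (fun s : ℝ => g₂ (w + s • e)) (𝓝[≠] 0) (𝓝 (g₂ w)) := by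
      have h2 : Tendsto (fun s : ℝ => g₂ (w + s • e)) (𝓝 0) (𝓝 (g₂ (w + (0 : ℝ) • e))) :=
        (hc₂.comp hc).tendsto 0
      rw [zero_smul, add_zero] at h2
      exact h2.mono_left nhdsWithin_le_nhds
    have h4 : (fun s : ℝ => g₁ (w + s • e)) =ᶠ[𝓝[≠] 0] fun s : ℝ => g₂ (w + s • e) := by
      refine eventually_nhdsWithin_of_forall fun s hs => ?_
      refine hne _ ?_
      rw [inner_add_right, real_inner_smul_right, hw, hee, zero_add, mul_one]
      exact hs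
    exact tendsto_nhds_unique (h1.congr' h4) h3
  · exact hne w hw

end Pool.Agent.REV.H65
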