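import Pool.Agent.REV.StmtsA13
import Pool.Agent.REV.StmtsA2
import Pool.Agent.Helper65_REV.GEN
import Pool.Agent.Helper65_REV.STA

/-!
# Squad REV (problem MP_bbfd73_gt): part A1 for n >= 3
-/

set_option autoImplicit false

namespace Pool.Agent.REV.H65

open Set MeasureTheory
open Pool.Agent.REV

theorem wA3_cont {n : ℕ} (hn : 3 ≤ n) :
    Continuous (fun ρ : ℝ => (1 - ρ ^ 2) ^ (((n : ℝ) - 2) / 2)) := by
  refine Continuous.rpow_const (by fun_prop) fun ρ => Or.inr ?_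
  have : (3 : ℝ) ≤ n := by exact_mod_cast hn
  linarith

theorem w3_cont {n : ℕ} (hn : 3 ≤ n) :
    Continuous (fun ρ : ℝ => (1 - ρ ^ 2) ^ (((n : ℝ) - 3) / 2)) := by
  refine Continuous.rpow_const (by fun_prop) fun ρ => Or.inr ?_
  have : (3 : ℝ) ≤ n := by exact_mod_cast hn
  linarith

/-- `(1 - r^2)^(-1/2)` is integrable: `(1 - r^2)^(-1/2) = r (r (1-r^2)^(-1/2)) + (1-r^2)^(1/2)` -/
theorem wC3_ii (pwi : PwiStmt) {n : ℕ} (hn : 3 ≤ n) :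
    IntervalIntegrable (fun r : ℝ => (1 - r ^ 2) ^ (((n : ℝ) - 4) / 2)) volume 0 1 := by
  rcases Nat.eq_or_lt_of_le hn with h | h
  · have h3 : (n : ℝ) = 3 := by exact_mod_cast h.symm
    have e1 : ((n : ℝ) - 4) / 2 = -(1 / 2) := by rw [h3]; norm_num
    rw [e1]
    have h1 := (pwi.2 (1 / 2) (by norm_num) (by norm_num)).1
    have h2 : IntervalIntegrable (fun r : ℝ => r * (r * (1 - r ^ 2) ^ (-(1 / 2) : ℝ))) volume 0 1 :=
      h1.continuousOn_mul continuous_id.continuousOn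
    have hc : Continuous fun r : ℝ => (1 - r ^ 2) ^ (1 / 2 : ℝ) :=
      Continuous.rpow_const (by fun_prop) fun ρ => Or.inr (by norm_num)
    have h4 : IntervalIntegrable (fun r : ℝ => r * (r * (1 - r ^ 2) ^ (-(1 / 2) : ℝ)) +
        (1 - r ^ 2) ^ (1 / 2 : ℝ)) volume 0 1 := h2.add (hc.intervalIntegrable 0 1)
    rw [intervalIntegrable_iff_integrableOn_Ioo_of_le zero_le_one] at h4 ⊢
    refine h4.congr_fun ?_ measurableSet_Ioo
    intro r hr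
    have hpos : 0 < 1 - r ^ 2 := by nlinarith [hr.1, hr.2]
    show r * (r * (1 - r ^ 2) ^ (-(1 / 2) : ℝ)) + (1 - r ^ 2) ^ (1 / 2 : ℝ) =
      (1 - r ^ 2) ^ (-(1 / 2) : ℝ)
    have h5 : (1 - r ^ 2) ^ (1 / 2 : ℝ) = (1 - r ^ 2) * (1 - r ^ 2) ^ (-(1 / 2) : ℝ) := by
      have h6 : (1 / 2 : ℝ) = 1 + -(1 / 2) := by norm_num
      conv_lhs => rw [h6]
      rw [Real.rpow_add hpos, Real.rpow_one]
    rw [h5]
    ring
  · have h4 : (4 : ℝ) ≤ n := by exact_mod_cast h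
    refine Continuous.intervalIntegrable ?_ _ _
    exact Continuous.rpow_const (by fun_prop) fun ρ => Or.inr (by linarith)

theorem wB3_ii (pwi : PwiStmt) {n : ℕ} (hn : 3 ≤ n) :
    IntervalIntegrable (fun r : ℝ => r ^ 2 * (1 - r ^ 2) ^ (((n : ℝ) - 4) / 2)) volume 0 1 :=
  (wC3_ii pwi hn).continuousOn_mul (by fun_prop)

/-- weight times bounded measurable function -/
theorem mul_bdd_ii {w h : ℝ → ℝ} (hw : IntervalIntegrable w volume 0 1)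
    (hm : AEStronglyMeasurable h (volume.restrict (Ioc (0 : ℝ) 1))) {M : ℝ}
    (hM : ∀ t ∈ Icc (0 : ℝ) 1, |h t| ≤ M) :
    IntervalIntegrable (fun t => w t * h t) volume 0 1 := by
  rw [intervalIntegrable_iff_integrableOn_Ioc_of_le zero_le_one] at hw ⊢
  have h1 : Integrable (fun t => h t * w t) (volume.restrict (Ioc (0 : ℝ) 1)) := by
    refine Integrable.bdd_mul (c := M) hw hm ?_
    refine (ae_restrict_iff' measurableSet_Ioc).mpr (Filter.Eventually.of_forall fun t ht => ?_)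
    rw [Real.norm_eq_abs]
    exact hM t ⟨ht.1.le, ht.2⟩
  have h2 : (fun t => w t * h t) = fun t => h t * w t := by
    funext t
    exact mul_comm _ _
  rw [h2]
  exact h1

/-- INT3 -/
theorem int3 (pwi : PwiStmt) : Int3Stmt := by
  intro n hn
  refine ⟨(wA3_cont hn).intervalIntegrable 0 1, wB3_ii pwi hn, wC3_ii pwi hn, ?_⟩
  intro f hf hM
  obtain ⟨M, hM⟩ := hM
  refine ⟨mul_bdd_ii ((w3_cont hn).intervalIntegrable 0 1) hf.aestronglyMeasurable hM, ?_⟩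
  intro c hc0 hc1
  have hm : Measurable fun r : ℝ => f (r * c) := hf.comp (measurable_id.mul_const c)
  have hb : ∀ r ∈ Icc (0 : ℝ) 1, |f (r * c)| ≤ M := by
    intro r hr
    refine hM _ ⟨mul_nonneg hr.1 hc0, ?_⟩
    calc r * c ≤ 1 * 1 := mul_le_mul hr.2 hc1 hc0 zero_le_one
      _ = 1 := one_mul 1
  exact ⟨mul_bdd_ii ((wA3_cont hn).intervalIntegrable 0 1) hm.aestronglyMeasurable hb,
    mul_bdd_ii (wB3_ii pwi hn) hm.aestronglyMeasurable hb⟩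

theorem mra3_core {w h₁ h₂ : ℝ → ℝ} (hw0 : ∀ ρ ∈ Icc (0 : ℝ) 1, 0 ≤ w ρ)
    (i₁ : IntervalIntegrable (fun ρ => w ρ * h₁ ρ) volume 0 1)
    (i₂ : IntervalIntegrable (fun ρ => w ρ * h₂ ρ) volume 0 1)
    (hle : ∀ ρ ∈ Icc (0 : ℝ) 1, h₁ ρ ≤ h₂ ρ) :
    ∫ ρ in (0 : ℝ)..1, w ρ * h₁ ρ ≤ ∫ ρ in (0 : ℝ)..1, w ρ * h₂ ρ := by
  refine intervalIntegral.integral_mono_on zero_le_one i₁ i₂ ?_
  intro ρ hρ
  exact mul_le_mul_of_nonneg_left (hle ρ hρ) (hw0 ρ hρ)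

/-- MRA3 -/
theorem mra3 (pwi : PwiStmt) : Mra3Stmt := by
  intro n g f hn hg hf
  obtain ⟨t1, t2, t3⟩ := taug g hg
  have hEl0 : ∀ c ∈ Sg g, ∀ ρ ∈ Icc (0 : ℝ) 1, 0 ≤ El n g f (ta g c ρ) := by
    intro c hc ρ hρ
    have ht := (t1 c ρ hc hρ.1 hρ.2).2
    refine mul_nonneg (Real.rpow_nonneg ?_ _) (hf _ ht)
    have h1 : ta g c ρ ^ 2 ≤ 1 := by nlinarith [ht.1, ht.2]
    have h2 := mul_nonneg hg (sq_nonneg (ta g c ρ))
    nlinarith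
  have hwA : ∀ ρ ∈ Icc (0 : ℝ) 1, 0 ≤ (1 - ρ ^ 2) ^ (((n : ℝ) - 2) / 2) := fun ρ hρ => wA_nonneg hρ
  have hwB : ∀ ρ ∈ Icc (0 : ℝ) 1, 0 ≤ ρ ^ 2 * (1 - ρ ^ 2) ^ (((n : ℝ) - 4) / 2) :=
    fun ρ hρ => wB_nonneg hρ
  have iA := (wA3_cont hn).intervalIntegrable (μ := volume) 0 1
  have iB := wB3_ii pwi hn
  have h00 : (0 : ℝ) ∈ Icc (0 : ℝ) 1 := ⟨le_rfl, zero_le_one⟩
  have h11 : (1 : ℝ) ∈ Icc (0 : ℝ) 1 := ⟨zero_le_one, le_rfl⟩
  refine ⟨?_, ?_, ?_⟩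
  · intro c hc
    constructor
    · exact intervalIntegral.integral_nonneg zero_le_one fun ρ hρ =>
        mul_nonneg (hwA ρ hρ) (hEl0 c hc ρ hρ)
    · exact intervalIntegral.integral_nonneg zero_le_one fun ρ hρ =>
        mul_nonneg (hwB ρ hρ) (hEl0 c hc ρ hρ)
  · intro hL
    have hmon : ∀ c ∈ Sg g, MonotoneOn (fun ρ => El n g f (ta g c ρ)) (Icc 0 1) := by
      intro c hc ρ hρ ρ' hρ' h
      exact hL (t1 c ρ hc hρ.1 hρ.2).2 (t1 c ρ' hc hρ'.1 hρ'.2).2 (t3 c ρ ρ' hc hρ.1 h hρ'.2)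
    have hae : ∀ c ∈ Sg g, AEStronglyMeasurable (fun ρ => El n g f (ta g c ρ))
        (volume.restrict (Ioc (0 : ℝ) 1)) := by
      intro c hc
      have h1 : IntervalIntegrable (fun ρ => El n g f (ta g c ρ)) volume 0 1 := by
        refine MonotoneOn.intervalIntegrable ?_
        rw [uIcc_of_le zero_le_one]
        exact hmon c hc
      rw [intervalIntegrable_iff_integrableOn_Ioc_of_le zero_le_one] at h1
      exact h1.aestronglyMeasurable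
    have hbd : ∀ c ∈ Sg g, ∀ ρ ∈ Icc (0 : ℝ) 1, |El n g f (ta g c ρ)| ≤ El n g f (ta g c 1) := by
      intro c hc ρ hρ
      rw [abs_of_nonneg (hEl0 c hc ρ hρ)]
      exact hmon c hc hρ h11 hρ.2
    constructor
    · intro c hc c' hc' hcc
      exact mra3_core hwA (mul_bdd_ii iA (hae c hc) (hbd c hc))
        (mul_bdd_ii iA (hae c' hc') (hbd c' hc'))
        fun ρ hρ => hL (t1 c ρ hc hρ.1 hρ.2).2 (t1 c' ρ hc' hρ.1 hρ.2).2
          (t2 c c' ρ hc hc' hcc hρ.1 hρ.2)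
    · intro c hc c' hc' hcc
      exact mra3_core hwB (mul_bdd_ii iB (hae c hc) (hbd c hc))
        (mul_bdd_ii iB (hae c' hc') (hbd c' hc'))
        fun ρ hρ => hL (t1 c ρ hc hρ.1 hρ.2).2 (t1 c' ρ hc' hρ.1 hρ.2).2
          (t2 c c' ρ hc hc' hcc hρ.1 hρ.2)
  · intro hU
    have hant : ∀ c ∈ Sg g, AntitoneOn (fun ρ => El n g f (ta g c ρ)) (Icc 0 1) := by
      intro c hc ρ hρ ρ' hρ' h
      exact hU (t1 c ρ hc hρ.1 hρ.2).2 (t1 c ρ' hc hρ'.1 hρ'.2).2 (t3 c ρ ρ' hc hρ.1 h hρ'.2)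
    have hae : ∀ c ∈ Sg g, AEStronglyMeasurable (fun ρ => El n g f (ta g c ρ))
        (volume.restrict (Ioc (0 : ℝ) 1)) := by
      intro c hc
      have h1 : IntervalIntegrable (fun ρ => El n g f (ta g c ρ)) volume 0 1 := by
        refine AntitoneOn.intervalIntegrable ?_
        rw [uIcc_of_le zero_le_one]
        exact hant c hc
      rw [intervalIntegrable_iff_integrableOn_Ioc_of_le zero_le_one] at h1
      exact h1.aestronglyMeasurable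
    have hbd : ∀ c ∈ Sg g, ∀ ρ ∈ Icc (0 : ℝ) 1, |El n g f (ta g c ρ)| ≤ El n g f (ta g c 0) := by
      intro c hc ρ hρ
      rw [abs_of_nonneg (hEl0 c hc ρ hρ)]
      exact hant c hc h00 hρ hρ.1
    constructor
    · intro c hc c' hc' hcc
      exact mra3_core hwA (mul_bdd_ii iA (hae c' hc') (hbd c' hc'))
        (mul_bdd_ii iA (hae c hc) (hbd c hc))
        fun ρ hρ => hU (t1 c ρ hc hρ.1 hρ.2).2 (t1 c' ρ hc' hρ.1 hρ.2).2
          (t2 c c' ρ hc hc' hcc hρ.1 hρ.2)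
    · intro c hc c' hc' hcc
      exact mra3_core hwB (mul_bdd_ii iB (hae c' hc') (hbd c' hc'))
        (mul_bdd_ii iB (hae c hc) (hbd c hc))
        fun ρ hρ => hU (t1 c ρ hc hρ.1 hρ.2).2 (t1 c' ρ hc' hρ.1 hρ.2).2
          (t2 c c' ρ hc hc' hcc hρ.1 hρ.2)

theorem sq_facts {t : ℝ} (ht : t ∈ Icc (0 : ℝ) 1) :
    0 ≤ 1 - t ^ 2 ∧ 1 - t ^ 2 ≤ 1 ∧ t ^ 2 ∈ Icc (0 : ℝ) 1 := by
  have h1 : t ^ 2 ≤ 1 := by nlinarith [ht.1, ht.2]
  exact ⟨by linarith, by nlinarith [sq_nonneg t], sq_nonneg t, h1⟩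

theorem sg_mem {g t : ℝ} (hg : 0 < g) (ht : t ∈ Icc (0 : ℝ) 1) : Real.sqrt (1 - t ^ 2) ∈ Sg g := by
  have h1 : Real.sqrt (1 - t ^ 2) ≤ 1 := by
    rw [Real.sqrt_le_one]
    exact (sq_facts ht).2.1
  exact ⟨Real.sqrt_nonneg _, h1, q_pos hg (Real.sqrt_nonneg _) h1⟩

/-- STA3 -/
theorem sta3 (pwi : PwiStmt) (lwa : LwaStmt) : Sta3Stmt := by
  intro n i C1 C2 d f hn hi hin hC1 hC2 hd hf hL
  have hg : (0 : ℝ) < 1 + d := by linarith
  obtain ⟨hnn, hmo, _⟩ := mra3 pwi n (1 + d) f hn hg.le hf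
  obtain ⟨hRA, hRB⟩ := hmo hL
  obtain ⟨lam, hlam, hl0⟩ : ∃ lam : ℝ, lam = ((i : ℝ) + 2) / ((n : ℝ) + 1) ∧ 0 ≤ lam :=
    ⟨_, rfl, by positivity⟩
  have hW := lwa n i d hin hd
  rw [← hlam] at hW ⊢
  have hld : 0 ≤ lam * d := mul_nonneg hl0 hd
  have hb0 : 0 ≤ 1 / (1 + lam * d) := by positivity
  have key : ∀ t ∈ Icc (0 : ℝ) 1,
      El n (1 / (1 + lam * d)) (TT n i C1 C2 f) t =
        ((1 + (1 / (1 + lam * d) - 1) * t ^ 2) ^ (((n : ℝ) + 1) / 2) *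
          (1 + d * (1 - t ^ 2)) ^ (-(((i : ℝ) + 2) / 2))) *
        (C1 * ((1 + d * (1 - t ^ 2)) * RA' n (1 + d) f (Real.sqrt (1 - t ^ 2)) ^ i) +
          C2 * (RB' n (1 + d) f (Real.sqrt (1 - t ^ 2)) *
            RA' n (1 + d) f (Real.sqrt (1 - t ^ 2)) ^ (i - 1))) := by
    intro t ht
    have hc := sg_mem hg ht
    have hA := cvag n (1 + d) _ f hc.2.2
    have hB := cvbg n (1 + d) _ f hc.2.2
    have hs2 : Real.sqrt (1 - t ^ 2) ^ 2 = 1 - t ^ 2 := Real.sq_sqrt (sq_facts ht).1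
    have hq : 1 + (1 + d - 1) * Real.sqrt (1 - t ^ 2) ^ 2 = 1 + d * (1 - t ^ 2) := by
      rw [hs2]; ring
    rw [hq] at hA hB
    have hq0 : 0 < 1 + d * (1 - t ^ 2) := by
      have := mul_nonneg hd (sq_facts ht).1
      linarith
    unfold El TT
    rw [hA, hB, sta_alg i hi C1 C2 _ _ _ hq0]
    ring
  intro t₁ h₁ t₂ h₂ h12
  rw [key t₁ h₁, key t₂ h₂]
  have hx : t₁ ^ 2 ≤ t₂ ^ 2 := by nlinarith [h₁.1, h₂.1]
  have hWle := hW (sq_facts h₁).2.2 (sq_facts h₂).2.2 hx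
  have hc12 : Real.sqrt (1 - t₂ ^ 2) ≤ Real.sqrt (1 - t₁ ^ 2) :=
    Real.sqrt_le_sqrt (by linarith)
  have hAle := hRA (sg_mem hg h₂) (sg_mem hg h₁) hc12
  have hBle := hRB (sg_mem hg h₂) (sg_mem hg h₁) hc12
  have hA2 := (hnn _ (sg_mem hg h₂)).1
  have hB2 := (hnn _ (sg_mem hg h₂)).2
  have hB1 := (hnn _ (sg_mem hg h₁)).2
  have hq2 : 0 ≤ 1 + d * (1 - t₂ ^ 2) := by
    have := mul_nonneg hd (sq_facts h₂).1
    linarith
  have hq12 : 1 + d * (1 - t₂ ^ 2) ≤ 1 + d * (1 - t₁ ^ 2) := by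
    have := mul_le_mul_of_nonneg_left hx hd
    linarith
  have hq1 : 0 ≤ 1 + d * (1 - t₁ ^ 2) := le_trans hq2 hq12
  have hbase : 0 ≤ 1 + (1 / (1 + lam * d) - 1) * t₁ ^ 2 := by
    have h1 := (sq_facts h₁).1
    have h2 := mul_nonneg hb0 (sq_nonneg t₁)
    nlinarith
  refine mul_le_mul hWle ?_ ?_ ?_
  · refine add_le_add ?_ ?_
    · refine mul_le_mul_of_nonneg_left ?_ hC1
      exact mul_le_mul hq12 (pow_le_pow_left₀ hA2 hAle i) (pow_nonneg hA2 i) hq1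
    · refine mul_le_mul_of_nonneg_left ?_ hC2
      exact mul_le_mul hBle (pow_le_pow_left₀ hA2 hAle (i - 1)) (pow_nonneg hA2 _) hB1
  · refine add_nonneg ?_ ?_
    · exact mul_nonneg hC1 (mul_nonneg hq2 (pow_nonneg hA2 _))
    · exact mul_nonneg hC2 (mul_nonneg hB2 (pow_nonneg hA2 _))
  · exact mul_nonneg (Real.rpow_nonneg hbase _) (Real.rpow_nonneg hq1 _)

/-- STB3 -/
theorem stb3 (pwi : PwiStmt) (lwb : LwbStmt) : Stb3Stmt := by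
  intro n i C1 C2 e f hn hi hin hC1 hC2 he hf hU
  have hg : (0 : ℝ) < 1 / (1 + e) := by positivity
  have hg1 : 1 / (1 + e) ≤ 1 := by
    rw [div_le_one (by positivity)]
    linarith
  obtain ⟨hnn, _, hmo⟩ := mra3 pwi n (1 / (1 + e)) f hn hg.le hf
  obtain ⟨hRA, hRB⟩ := hmo hU
  have hW := lwb n i e hin he
  obtain ⟨g, hgd⟩ : ∃ g : ℝ, g = 1 / (1 + e) := ⟨_, rfl⟩
  obtain ⟨lam, hlam, hl0⟩ : ∃ lam : ℝ, lam = ((i : ℝ) + 2) / ((n : ℝ) + 1) ∧ 0 ≤ lam :=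
    ⟨_, rfl, by positivity⟩
  rw [← hlam, ← hgd] at hW
  rw [← hgd] at hg hg1 hnn hRA hRB
  rw [← hlam]
  have hle : 0 ≤ lam * e := mul_nonneg hl0 he
  have hqpos : ∀ t : ℝ, 0 < g + (1 - g) * t ^ 2 := by
    intro t
    have h1 : 0 ≤ (1 - g) * t ^ 2 := mul_nonneg (by linarith) (sq_nonneg t)
    linarith
  have key : ∀ t ∈ Icc (0 : ℝ) 1,
      El n (1 + lam * e) (TT n i C1 C2 f) t =
        ((1 + lam * e * t ^ 2) ^ (((n : ℝ) + 1) / 2) *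
          (g + (1 - g) * t ^ 2) ^ (-(((i : ℝ) + 2) / 2))) *
        (C1 * ((g + (1 - g) * t ^ 2) * RA' n g f (Real.sqrt (1 - t ^ 2)) ^ i) +
          C2 * (RB' n g f (Real.sqrt (1 - t ^ 2)) *
            RA' n g f (Real.sqrt (1 - t ^ 2)) ^ (i - 1))) := by
    intro t ht
    have hc := sg_mem hg ht
    have hA := cvag n g _ f hc.2.2
    have hB := cvbg n g _ f hc.2.2
    have hs2 : Real.sqrt (1 - t ^ 2) ^ 2 = 1 - t ^ 2 := Real.sq_sqrt (sq_facts ht).1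
    have hq : 1 + (g - 1) * Real.sqrt (1 - t ^ 2) ^ 2 = g + (1 - g) * t ^ 2 := by
      rw [hs2]; ring
    rw [hq] at hA hB
    have h1 : 1 + (1 + lam * e - 1) * t ^ 2 = 1 + lam * e * t ^ 2 := by ring
    unfold El TT
    rw [hA, hB, sta_alg i hi C1 C2 _ _ _ (hqpos t), h1]
    ring
  intro t₁ h₁ t₂ h₂ h12
  rw [key t₁ h₁, key t₂ h₂]
  have hx : t₁ ^ 2 ≤ t₂ ^ 2 := by nlinarith [h₁.1, h₂.1]
  have hWle := hW (sq_facts h₁).2.2 (sq_facts h₂).2.2 hx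
  have hc12 : Real.sqrt (1 - t₂ ^ 2) ≤ Real.sqrt (1 - t₁ ^ 2) :=
    Real.sqrt_le_sqrt (by linarith)
  have hAle := hRA (sg_mem hg h₂) (sg_mem hg h₁) hc12
  have hBle := hRB (sg_mem hg h₂) (sg_mem hg h₁) hc12
  have hA1 := (hnn _ (sg_mem hg h₁)).1
  have hB1 := (hnn _ (sg_mem hg h₁)).2
  have hB2 := (hnn _ (sg_mem hg h₂)).2
  have hq12 : g + (1 - g) * t₁ ^ 2 ≤ g + (1 - g) * t₂ ^ 2 := by
    have := mul_le_mul_of_nonneg_left hx (by linarith : 0 ≤ 1 - g)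
    linarith
  have hbase : 0 ≤ 1 + lam * e * t₂ ^ 2 := by positivity
  refine mul_le_mul hWle ?_ ?_ ?_
  · refine add_le_add ?_ ?_
    · refine mul_le_mul_of_nonneg_left ?_ hC1
      exact mul_le_mul hq12 (pow_le_pow_left₀ hA1 hAle i) (pow_nonneg hA1 i) (hqpos t₂).le
    · refine mul_le_mul_of_nonneg_left ?_ hC2
      exact mul_le_mul hBle (pow_le_pow_left₀ hA1 hAle (i - 1)) (pow_nonneg hA1 _) hB2
  · refine add_nonneg ?_ ?_
    · exact mul_nonneg hC1 (mul_nonneg (hqpos t₁).le (pow_nonneg hA1 _))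
    · exact mul_nonneg hC2 (mul_nonneg hB1 (pow_nonneg hA1 _))
  · exact mul_nonneg (Real.rpow_nonneg hbase _) (Real.rpow_nonneg (hqpos t₂).le _)

end Pool.Agent.REV.H65
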